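import Pool.Agent.helper27.BN.Cap

/-!
# MP_94a57f_an, module C9a with a uniform constant
-/

set_option autoImplicit false
open MeasureTheory Filter Topology Set Metric
open scoped ContDiff Gradient RealInnerProductSpace ENNReal

noncomputable section
namespace Pool.Agent.helper13.BN
variable {N : ℕ}

/-- the cap estimate of `helper27.BN.Cap` with a constant independent of `ρ` -/
theorem cap_unif (hN : 3 ≤ N) : ∃ C : ℝ, 0 < C ∧ ∀ ρ : ℝ, 0 < ρ → ρ < 1 →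
    ∀ (e : E N) (w : LV N) (v g : E N → ℝ) (K : ℝ), ‖e‖ = 1 → w ∈ XS e ρ → 0 ≤ K →
      IsRep (ann N ρ) w v → Weak (ann N ρ) w g → ContinuousOn g (ann N ρ) →
      (∀ x ∈ ann N ρ, |g x| ≤ K * (1 - ‖x‖)) → (∀ x ∈ ann N ρ, |v x| ≤ K * (1 - ‖x‖)) →
      (∀ (R : E N ≃ₗᵢ[ℝ] E N) (k : ℝ), (∀ x, ‖R x - x‖ ≤ k * ‖x‖) → ∀ x ∈ ann N ρ,
          |v (R x) + v (R.symm x) - 2 * v x| ≤ K * k ^ 2 * (1 - ‖x‖)) →
      ∀ ψ : ℝ → ℝ, ContDiff ℝ ∞ ψ → HasCompactSupport ψ → tsupport ψ ⊆ Ioo ρ 1 →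
        |∫ r in ρ..1, v (r • e) * deriv (fun s => s ^ (N - 1) * deriv ψ s) r|
          ≤ C * K * ∫ r in ρ..1, (1 - r) * |ψ r| := by
  have hN' : (3 : ℝ) ≤ N := by exact_mod_cast hN
  refine ⟨1 + 16 * N * (N - 1), by nlinarith, ?_⟩
  intro ρ hρ hρ1 e w v g K he hw hK hv hg hgc hgb hvb h2 ψ hψ _ hψs
  have key := CapMod.main_k hN hρ hρ1 he hw hK hv hg hgc hgb hvb h2 hψ hψs
  set L1 := ∫ r in ρ..1, (1 - r) * |CapMod.DD1 N ψ r|
  have hlim : Tendsto (fun k : ℕ => (1 + 16 * (N : ℝ) * (N - 1)) * K * (∫ r in ρ..1, (1 - r) * |ψ r|)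
        + 8 * K * (((N : ℝ) - 1) / ((k : ℝ) + 1)) * L1) atTop
      (𝓝 ((1 + 16 * (N : ℝ) * (N - 1)) * K * (∫ r in ρ..1, (1 - r) * |ψ r|)
        + 8 * K * 0 * L1)) := by
    have h1 : Tendsto (fun k : ℕ => ((N : ℝ) - 1) / ((k : ℝ) + 1)) atTop (𝓝 0) :=
      ((tendsto_const_div_atTop_nhds_zero_nat ((N : ℝ) - 1)).comp (tendsto_add_atTop_nat 1)).congr
        fun k => by simp
    exact tendsto_const_nhds.add ((h1.const_mul (8 * K)).mul_const L1)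
  have := ge_of_tendsto' hlim fun k => key k
  simpa [CapMod.DD1] using this

end Pool.Agent.helper13.BN
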