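import Pool.Agent.helper67.BN.FF6
import Pool.Agent.helper27.BN.Cap
import Pool.Agent.helper78.BN.Conv1D
import Pool.Agent.helper73.BN.AxY
import Pool.Agent.helper73.BN.Hold
import Pool.Agent.helper40.BN.OmTan
import Pool.Agent.helper67.BN.CapU
import Pool.Agent.helper73.BN.ExCr
import Pool.Agent.helper45.BN.FamEx
import Pool.Agent.helper51.BN.Nondeg

/-!
# MP_94a57f_an, module C11: the family of solutions on the annulus
-/

set_option autoImplicit false
open MeasureTheory Filter Topology Set Metric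
open scoped ContDiff Gradient RealInnerProductSpace ENNReal

noncomputable section
namespace Pool.Agent.helper13.BN
namespace FF
variable {N : ℕ}

/-- last zero with a sign change -/
lemma last_zero {f : ℝ → ℝ} {a c : ℝ} (hac : a ≤ c) (hf : ContinuousOn f (Icc a c)) (ha : f a < 0)
    (hc : 0 < f c) : ∃ b ∈ Icc a c, b < c ∧ f b = 0 ∧ ∀ x ∈ Icc a c, b < x → 0 < f x := by
  set Z : Set ℝ := Icc a c ∩ f ⁻¹' Iic 0 with hZ
  have hcl : IsClosed Z := hf.preimage_isClosed_of_isClosed isClosed_Icc isClosed_Iic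
  have hcomp : IsCompact Z := isCompact_Icc.of_isClosed_subset hcl inter_subset_left
  have hne : Z.Nonempty := ⟨a, left_mem_Icc.2 hac, ha.le⟩
  have hmem := hcomp.sSup_mem hne
  set b := sSup Z with hb
  have hbc : b < c := by
    refine lt_of_le_of_ne hmem.1.2 fun h => ?_
    have h1 : f b ≤ 0 := hmem.2
    rw [h] at h1
    linarith
  have hpos : ∀ x ∈ Icc a c, b < x → 0 < f x := by
    intro x hx hbx
    by_contra hcon
    push Not at hcon
    exact absurd (le_csSup hcomp.bddAbove (show x ∈ Z from ⟨hx, hcon⟩)) (not_le.2 hbx)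
  refine ⟨b, hmem.1, hbc, le_antisymm hmem.2 ?_, hpos⟩
  have h1 : Tendsto f (𝓝[Ioc b c] b) (𝓝 (f b)) :=
    (hf b hmem.1).mono_left (nhdsWithin_mono _ fun x hx => ⟨hmem.1.1.trans hx.1.le, hx.2⟩)
  have : (𝓝[Ioc b c] b).NeBot := by
    rw [nhdsWithin_Ioc_eq_nhdsGT hbc]; infer_instance
  refine ge_of_tendsto h1 ?_
  filter_upwards [self_mem_nhdsWithin] with x hx
  exact (hpos x ⟨hmem.1.1.trans hx.1.le, hx.2⟩ hx.1).le

/-- a sequence decreasing to `b` -/
lemma seq_tendsto (b c : ℝ) : Tendsto (fun n : ℕ => b + (c - b) / ((n : ℝ) + 1)) atTop (𝓝 b) := by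
  have h1 : Tendsto (fun n : ℕ => (c - b) * (1 / ((n : ℝ) + 1))) atTop (𝓝 ((c - b) * 0)) :=
    tendsto_one_div_add_atTop_nhds_zero_nat.const_mul _
  rw [mul_zero] at h1
  have h2 := h1.const_add b
  rw [add_zero] at h2
  refine h2.congr fun n => ?_
  rw [mul_one_div]

lemma exists_const {C0 B C4 Cc C6 k1 k2 k3 η' lam G : ℝ} (hC0 : 0 < C0) (hB : 0 < B)
    (hC4 : 0 < C4) (hCc : 0 < Cc) (hC6 : 0 < C6) (hk1 : 0 < k1) (hk2 : 0 < k2) (hk3 : 0 < k3)
    (hη' : 0 < η') (hlam : 0 < lam) (hG : 0 < G) : ∃ k : ℝ, 0 < k ∧ k ≤ k1 ∧ k ≤ k2 ∧ k ≤ k3 ∧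
      B * k ≤ η' / 4 ∧ C0 * k ≤ lam / 4 ∧ 2 * (2 * (B * k) * C4 + C6 * (Cc * (B * k))) ≤ G := by
  refine ⟨min (min k1 (min k2 k3)) (min (η' / 4 / B) (min (lam / 4 / C0)
    (G / (2 * (2 * B * C4 + C6 * (Cc * B)))))), ?_, ?_, ?_, ?_, ?_, ?_, ?_⟩
  · positivity
  · exact (min_le_left _ _).trans (min_le_left _ _)
  · exact (min_le_left _ _).trans ((min_le_right _ _).trans (min_le_left _ _))
  · exact (min_le_left _ _).trans ((min_le_right _ _).trans (min_le_right _ _))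
  · rw [mul_comm, ← le_div_iff₀ hB]
    exact (min_le_right _ _).trans (min_le_left _ _)
  · rw [mul_comm, ← le_div_iff₀ hC0]
    exact (min_le_right _ _).trans ((min_le_right _ _).trans (min_le_left _ _))
  · set k := min (min k1 (min k2 k3)) (min (η' / 4 / B) (min (lam / 4 / C0)
      (G / (2 * (2 * B * C4 + C6 * (Cc * B))))))
    have h1 : k ≤ G / (2 * (2 * B * C4 + C6 * (Cc * B))) :=
      (min_le_right _ _).trans ((min_le_right _ _).trans (min_le_right _ _))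
    rw [le_div_iff₀ (by positivity)] at h1
    linarith

end FF

variable {N : ℕ}

open FF in
/-- **The family**, parametrised by `b` in a right neighbourhood of `b0`. -/
theorem fam_core (hN : 3 ≤ N) (hN5 : N ≤ 5) {η : ℝ} (hη : 0 < η) :
    ∃ (e : E N) (ρ lamb b0 r : ℝ) (vb : LV N) (lam' : ℝ → ℝ), 0 < ρ ∧ ρ < 1 ∧ 0 < lamb ∧ 0 < r ∧
      ContinuousOn lam' (Icc b0 (b0 + r)) ∧ lam' b0 = lamb ∧
      (∀ b ∈ Ioc b0 (b0 + r), lam' b ≠ lamb) ∧
      ∀ bs : ℕ → ℝ, (∀ n, bs n ∈ Ioc b0 (b0 + r)) → Tendsto bs atTop (𝓝 b0) →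
        ∃ F : Fam N η, F.e = e ∧ F.ρ = ρ ∧ F.lamb = lamb ∧ F.vb = vb ∧
          F.lam = fun n => lam' (bs n) := by
  obtain ⟨D⟩ := exists_Cr hN hN5
  obtain ⟨e, he⟩ : ∃ e : E N, ‖e‖ = 1 :=
    ⟨EuclideanSpace.single ⟨0, by omega⟩ 1, by simp⟩
  obtain ⟨C0, η0, hC0, hη0, hη0', hfam⟩ := fam_exists hN hN5 D he
  obtain ⟨η1, k1, hη1, hk1, hnd⟩ := fam_nondeg hN hN5 D he C0
  obtain ⟨B, k2, hB, hk2, htan⟩ := om_tan hN hN5 D he C0
  obtain ⟨C3, hC3, hbdd⟩ := eig_bdd hN D he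
  obtain ⟨C4, d4, hC4, hd4, hax⟩ := axis_eig hN D he
  obtain ⟨Cc, hCc, hcap⟩ := cap_unif hN
  have hρ0 : Real.exp (-D.L) < 1 := by rw [Real.exp_lt_one_iff]; linarith [D.hL]
  obtain ⟨ρs, hρs0, hρs1⟩ := exists_between hρ0
  have hρsp : 0 < ρs := (Real.exp_pos _).trans hρs0
  obtain ⟨C6, hC6, hconv⟩ := conv1D hN hρsp hρs1
  obtain ⟨k3, hk3, hsigns⟩ := both_signs hN D (e := e) B
  -- constants
  have hl1 : 1 ≤ D.l := D.hl.pos
  obtain ⟨γs, hγs⟩ : ∃ γs : ℝ, γs = (D.l : ℝ) * (D.l + N - 2) / 6 := ⟨_, rfl⟩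
  have hγs0 : 0 < γs := by
    have h1 : (1 : ℝ) ≤ D.l := by exact_mod_cast hl1
    have h2 : (3 : ℝ) ≤ N := by exact_mod_cast hN
    rw [hγs]
    have : 0 < (D.l : ℝ) + N - 2 := by linarith
    positivity
  obtain ⟨η', hη'd⟩ : ∃ η' : ℝ, η' = min η0 η1 := ⟨_, rfl⟩
  have hη'0 : 0 < η' := by rw [hη'd]; exact lt_min hη0 hη1
  have hη'1 : η' ≤ η0 := by rw [hη'd]; exact min_le_left _ _
  have hη'2 : η' ≤ η1 := by rw [hη'd]; exact min_le_right _ _
  obtain ⟨k, hk, hkk1, hkk2, hkk3, hkB, hkC0, hkG⟩ := exists_const (G := η * γs / 8) hC0 hB hC4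
    hCc hC6 hk1 hk2 hk3 hη'0 D.hlam (by positivity)
  -- choice of `i`
  have hrho : ∀ᶠ i in atTop, D.rho i ≤ ρs := by
    have h1 : Tendsto D.rho atTop (𝓝 (Real.exp (-D.L))) :=
      (Real.continuous_exp.tendsto _).comp D.tL.neg
    exact (h1.eventually (gt_mem_nhds hρs0)).mono fun i hi => hi.le
  have hgam : ∀ᶠ i in atTop, 3 / 4 * γs ≤ γs - (D.lam2 i - D.lam1 i) / 6 := by
    have h1 : Tendsto (fun i => (D.lam2 i - D.lam1 i) / 6) atTop (𝓝 ((D.lam - D.lam) / 6)) :=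
      (D.t2.sub D.t1).div_const 6
    rw [sub_self, zero_div] at h1
    have h2 : 0 < 1 / 4 * γs := by positivity
    exact (h1.eventually (gt_mem_nhds h2)).mono fun i hi => by linarith
  have hlam1 : ∀ᶠ i in atTop, D.lam / 2 ≤ D.lam1 i := by
    have h2 : D.lam / 2 < D.lam := by linarith [D.hlam]
    exact (D.t1.eventually (lt_mem_nhds h2)).mono fun i hi => hi.le
  obtain ⟨i, h_fam, h_nd, h_tan, h_bdd, h_ax, h_rho, h_signs, h_gam, h_lam1⟩ :=
    ((hfam k hk).and (hnd.and (htan.and (hbdd.and (hax.and (hrho.and (hsigns.and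
      (hgam.and hlam1)))))))).exists
  clear hfam hnd htan hbdd hax hrho hsigns hgam hlam1
  obtain ⟨γ, hγ⟩ : ∃ γ : ℝ, γ = γs - (D.lam2 i - D.lam1 i) / 6 := ⟨_, rfl⟩
  rw [← hγ] at h_gam
  have hγ0 : 0 < γ := by linarith
  obtain ⟨om, sig, lam', c_om, c_sig, c_lam, hsol⟩ := h_fam
  obtain ⟨I, hI⟩ : ∃ I : Set ℝ, I = Icc (-1 - η') (-1 + η') := ⟨_, rfl⟩
  have hIsub : I ⊆ Icc (-1 - η0) (-1 + η0) := by
    rw [hI]; exact Icc_subset_Icc (by linarith) (by linarith)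
  have hI1 : ∀ b ∈ I, |b + 1| ≤ η' := by
    intro b hb
    rw [hI] at hb
    rw [abs_le]
    constructor <;> linarith [hb.1, hb.2]
  have hI2 : ∀ b ∈ I, |b| ≤ 2 := by
    intro b hb
    rw [hI] at hb
    rw [abs_le]
    constructor <;> linarith [hb.1, hb.2]
  have hex : ∀ b : ℝ, ∃ v g : E N → ℝ, b ∈ I → (IsRep (D.Om i) (om b) v ∧ Weak (D.Om i) (om b) g ∧
      ContinuousOn g (D.Om i) ∧
        (∀ x ∈ D.Om i, |g x| ≤ B * sig b * (1 - ‖x‖)) ∧
        (∀ x ∈ D.Om i, |v x| ≤ B * sig b * (1 - ‖x‖)) ∧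
        (∀ (R : E N ≃ₗᵢ[ℝ] E N) (k : ℝ), (∀ x, ‖R x - x‖ ≤ k * ‖x‖) → ∀ x ∈ D.Om i,
          |v (R x) + v (R.symm x) - 2 * v x| ≤ B * sig b * k ^ 2 * (1 - ‖x‖))) := by
    intro b
    by_cases hb : b ∈ I
    · have h1 := hsol b (hIsub hb)
      obtain ⟨v, g, h⟩ := h_tan b (om b) (sig b) (lam' b) (hI2 b hb) (h1.1.trans hkk2) h1.2
      exact ⟨v, g, fun _ => h⟩
    · exact ⟨0, 0, fun h => absurd h hb⟩
  choose v g hvg using hex
  let S : Br D e i C0 B k I :=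
    { om := om, sig := sig, lam' := lam', v := v, g := g, he := he
      c_om := c_om.mono hIsub
      c_sig := c_sig.mono hIsub
      c_lam := c_lam.mono hIsub
      sig_le := fun b hb => (hsol b (hIsub hb)).1
      sol := fun b hb => (hsol b (hIsub hb)).2
      rep := fun b hb => (hvg b hb).1
      wk := fun b hb => (hvg b hb).2.1
      gcont := fun b hb => (hvg b hb).2.2.1
      g_le := fun b hb => (hvg b hb).2.2.2.1
      v_le := fun b hb => (hvg b hb).2.2.2.2.1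
      tan := fun b hb => (hvg b hb).2.2.2.2.2 }
  have hSlam : S.lam' = lam' := rfl
  -- profile
  obtain ⟨K3, hK3⟩ : ∃ K3 : ℝ, K3 = C6 * (Cc * (B * k)) := ⟨_, rfl⟩
  have hK30 : 0 < K3 := by rw [hK3]; positivity
  obtain ⟨d1, hd1⟩ : ∃ d1 : ℝ, d1 = min (min d4 ((1 - ρs) / 2)) 1 := ⟨_, rfl⟩
  have hd10 : 0 < d1 := by
    rw [hd1]; exact lt_min (lt_min hd4 (by linarith)) one_pos
  have hd14 : d1 ≤ d4 := by rw [hd1]; exact (min_le_left _ _).trans (min_le_left _ _)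
  have hd1ρ : d1 < 1 - ρs := by
    have h1 : d1 ≤ (1 - ρs) / 2 := by rw [hd1]; exact (min_le_left _ _).trans (min_le_right _ _)
    linarith
  have hd11 : d1 ≤ 1 := by rw [hd1]; exact min_le_right _ _
  have hrho1 : ∀ d ∈ Ioo 0 d1, (1 - d) • e ∈ D.Om i := fun d hd =>
    S.axis_mem (by linarith [hd.2]) (by linarith [hd.1])
  have hprof : ∀ b : ℝ, ∃ ε : ℝ, b ∈ I → (|ε| ≤ B * S.sig b ∧
      ∀ d ∈ Ioo 0 d1, |S.v b ((1 - d) • e) - ε * AA N (1 - d)| ≤ K3 * d ^ 3) := by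
    intro b
    by_cases hb : b ∈ I
    · obtain ⟨ε, h1, h2⟩ := Br.profile hN hcap hCc hρs1 hconv S hB.le h_rho hb
      refine ⟨ε, fun _ => ⟨h1, fun d hd => ?_⟩⟩
      have h3 := h2 (1 - d) ⟨by linarith [hd.2], by linarith [hd.1]⟩
      rw [sub_sub_cancel] at h3
      refine h3.trans (mul_le_mul_of_nonneg_right ?_ (by have := hd.1; positivity))
      rw [hK3]
      exact mul_le_mul_of_nonneg_left (mul_le_mul_of_nonneg_left
        (mul_le_mul_of_nonneg_left (S.sig_le b hb) hB.le) hCc.le) hC6.le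
    · exact ⟨0, fun h => absurd h hb⟩
  choose eo heo using hprof
  have hAA : ∀ d ∈ Ioo 0 d1, |AA N (1 - d) - d| ≤ C4 * d ^ 2 := fun d hd =>
    (h_ax d ⟨hd.1, hd.2.trans_le hd14⟩).2.2
  have heo_cont : ContinuousOn eo I := S.eps_cont hN hN5 hd10 (by linarith) hK30 hC4
    (fun b hb => (heo b hb).2) hAA
  have heo_le : ∀ b ∈ I, |eo b| ≤ B * k := fun b hb =>
    (heo b hb).1.trans (mul_le_mul_of_nonneg_left (S.sig_le b hb) hB.le)
  obtain ⟨ep, hep⟩ : ∃ ep : ℝ → ℝ, ep = fun b => 1 + b + eo b := ⟨_, rfl⟩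
  have hep_cont : ContinuousOn ep I := by
    rw [hep]; exact (continuousOn_const.add continuousOn_id).add heo_cont
  have hlI : -1 - η' ∈ I := by rw [hI]; exact ⟨le_rfl, by linarith⟩
  have hrI : -1 + η' ∈ I := by rw [hI]; exact ⟨by linarith, le_rfl⟩
  obtain ⟨b0, hb0I, hb0c, hb00, hb0pos⟩ := last_zero (f := ep) (a := -1 - η') (c := -1 + η')
    (by linarith) (by rw [← hI]; exact hep_cont)
    (by
      have := heo_le _ hlI
      rw [abs_le] at this
      rw [hep]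
      simp only
      linarith [this.2])
    (by
      have := heo_le _ hrI
      rw [abs_le] at this
      rw [hep]
      simp only
      linarith [this.1])
  rw [← hI] at hb0I hb0pos
  -- expansion
  have hexp : ∀ b ∈ I, ∀ d ∈ Ioo 0 d1,
      |S.u b ((1 - d) • e) - (ep b * AA N (1 - d) + b * γ * d ^ 3)| ≤
        (|1 + b| * C4 + |b| * (C4 * d) + K3) * d ^ 3 := by
    intro b hb d hd
    have h1 := h_ax d ⟨hd.1, hd.2.trans_le hd14⟩
    have h2 := S.axis_exp (eo := eo) (K3 := K3) (C4 := C4) (γ := γ) (b := b) hd.1 (hrho1 d hd)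
      h1.1 (by
        have h3 := h1.2.1
        rw [hγ, hγs]
        convert h3 using 3
        ring) ((heo b hb).2 d hd)
    rw [hep]
    exact h2
  have hexp2 : ∀ b ∈ I, ∀ d ∈ Ioo 0 d1,
      |S.u b ((1 - d) • e) - ep b * AA N (1 - d)| ≤ (2 * γ + (η' + 2) * C4 + K3) * d ^ 3 := by
    intro b hb d hd
    have h1 := hexp b hb d hd
    have h2 := hI2 b hb
    have h3 := hI1 b hb
    rw [add_comm] at h3
    have hd3 : 0 < d ^ 3 := by have := hd.1; positivity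
    have e1 : S.u b ((1 - d) • e) - ep b * AA N (1 - d) =
        (S.u b ((1 - d) • e) - (ep b * AA N (1 - d) + b * γ * d ^ 3)) + b * γ * d ^ 3 := by ring
    rw [e1]
    refine (abs_add_le _ _).trans ?_
    have h4 : |b * γ * d ^ 3| ≤ 2 * γ * d ^ 3 := by
      rw [abs_mul, abs_mul, abs_of_pos hγ0, abs_of_pos hd3]
      exact mul_le_mul_of_nonneg_right (mul_le_mul_of_nonneg_right h2 hγ0.le) hd3.le
    have h5 : (|1 + b| * C4 + |b| * (C4 * d) + K3) * d ^ 3 ≤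
        ((η' + 2) * C4 + K3) * d ^ 3 := by
      refine mul_le_mul_of_nonneg_right ?_ hd3.le
      have h6 : |b| * (C4 * d) ≤ 2 * (C4 * 1) :=
        mul_le_mul h2 (mul_le_mul_of_nonneg_left (hd.2.le.trans hd11) hC4.le)
          (by have := hd.1; positivity) (by norm_num)
      have h7 : |1 + b| * C4 ≤ η' * C4 := mul_le_mul_of_nonneg_right h3 hC4.le
      linarith
    linarith
  -- nondegeneracy
  have hnd0 := S.nondeg hN hb0I (h_nd b0 (S.om b0) (S.sig b0) (S.lam' b0)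
    ((hI1 b0 hb0I).trans hη'2) ((S.sig_le b0 hb0I).trans hkk1) (S.sol b0 hb0I))
  have hne_ev := S.lam_ne_ev hN hN5 hb0I hnd0
  -- the constants at `b0`
  have hsc0 := S.sc_pos hb0I
  have hb0abs : |1 + b0| ≤ B * k := by
    have h1 : 1 + b0 = -eo b0 := by
      rw [hep] at hb00
      simp only at hb00
      linarith
    rw [h1, abs_neg]
    exact heo_le b0 hb0I
  have hb0neg : 1 / 2 ≤ -b0 := by
    rw [abs_le] at hb0abs
    linarith [hb0abs.2]
  obtain ⟨gam, hgamd⟩ : ∃ gam : ℝ, gam = S.sc b0 * (-b0) * γ := ⟨_, rfl⟩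
  have hgam0 : 0 < gam := by rw [hgamd]; have : 0 < -b0 := by linarith
                             positivity
  have hgam_ge : S.sc b0 * (3 / 8 * γs) ≤ gam := by
    rw [hgamd, mul_assoc]
    refine mul_le_mul_of_nonneg_left ?_ hsc0.le
    nlinarith
  -- neighbourhood of `b0`
  have ev1 : ∀ᶠ b in 𝓝[I] b0, |b - b0| < B * k := by
    have h1 : Tendsto (fun b : ℝ => |b - b0|) (𝓝[I] b0) (𝓝 0) := by
      have h2 : Tendsto (fun b : ℝ => b) (𝓝[I] b0) (𝓝 b0) := tendsto_id.mono_left nhdsWithin_le_nhds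
      simpa using (h2.sub_const b0).abs
    exact h1.eventually (gt_mem_nhds (by positivity))
  have ev2 : ∀ᶠ b in 𝓝[I] b0, S.sc b < 2 * S.sc b0 :=
    (S.sc_cont b0 hb0I).eventually (gt_mem_nhds (by linarith))
  have ev3 : ∀ᶠ b in 𝓝[I] b0, |S.sc b * b * γ + gam| < η / 4 * gam := by
    have h1 : Tendsto (fun b : ℝ => |S.sc b * b * γ + gam|) (𝓝[I] b0)
        (𝓝 |S.sc b0 * b0 * γ + gam|) := by
      have h2 : Tendsto (fun b : ℝ => b) (𝓝[I] b0) (𝓝 b0) := tendsto_id.mono_left nhdsWithin_le_nhds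
      have h3 : Tendsto S.sc (𝓝[I] b0) (𝓝 (S.sc b0)) := S.sc_cont b0 hb0I
      exact (((h3.mul h2).mul_const γ).add_const gam).abs
    have h4 : S.sc b0 * b0 * γ + gam = 0 := by rw [hgamd]; ring
    rw [h4, abs_zero] at h1
    exact h1.eventually (gt_mem_nhds (by positivity))
  -- the interval
  obtain ⟨c, hcd⟩ : ∃ c : ℝ, c = -1 + η' := ⟨_, rfl⟩
  rw [← hcd] at hb0c
  obtain ⟨r0, hr00, hr0⟩ := Metric.mem_nhdsWithin_iff.1 (ev1.and (ev2.and (ev3.and hne_ev)))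
  obtain ⟨r, hr⟩ : ∃ r : ℝ, r = min (r0 / 2) (c - b0) := ⟨_, rfl⟩
  have hrpos : 0 < r := by rw [hr]; exact lt_min (by linarith) (by linarith)
  have hrr0 : r ≤ r0 / 2 := by rw [hr]; exact min_le_left _ _
  have hrc : r ≤ c - b0 := by rw [hr]; exact min_le_right _ _
  have hIcc : Icc b0 (b0 + r) ⊆ I := by
    intro b hb
    rw [hI] at hb0I ⊢
    exact ⟨by linarith [hb0I.1, hb.1], by linarith [hb.2]⟩
  have hP : ∀ b ∈ Icc b0 (b0 + r), |b - b0| < B * k ∧ S.sc b < 2 * S.sc b0 ∧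
      |S.sc b * b * γ + gam| < η / 4 * gam ∧
      (S.lam' b = S.lam' b0 → S.vv b = S.vv b0) := by
    intro b hb
    refine hr0 ⟨?_, hIcc hb⟩
    rw [mem_ball, Real.dist_eq, abs_of_nonneg (by linarith [hb.1])]
    linarith [hb.2]
  have hne : ∀ b ∈ Ioc b0 (b0 + r), S.lam' b ≠ S.lam' b0 := by
    intro b hb hn
    have hbI := hIcc (Ioc_subset_Icc_self hb)
    have h1 := (hP b (Ioc_subset_Icc_self hb)).2.2.2 hn
    have h2 := S.slope_eq hN hbI hb0I hd10 (by linarith) hAA hexp2 h1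
    rw [hb00, mul_zero] at h2
    exact (mul_pos (S.sc_pos hbI) (hb0pos _ hbI hb.1)).ne' h2
  -- Hölder estimate
  obtain ⟨C7, d7, hC7, hd7, hhold⟩ := hold_axis hN (rho_pos D i) (rho_lt D i)
  obtain ⟨d0, hd0⟩ : ∃ d0 : ℝ, d0 = min (min d1 d7) (η * γs / (32 * C4)) := ⟨_, rfl⟩
  have hd00 : 0 < d0 := by
    rw [hd0]; exact lt_min (lt_min hd10 hd7) (by positivity)
  have hd01 : d0 ≤ d1 := by rw [hd0]; exact (min_le_left _ _).trans (min_le_left _ _)
  have hd07 : d0 ≤ d7 := by rw [hd0]; exact (min_le_left _ _).trans (min_le_right _ _)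
  have hd0G : 4 * C4 * d0 ≤ η * γs / 8 := by
    have h1 : d0 ≤ η * γs / (32 * C4) := by rw [hd0]; exact min_le_right _ _
    rw [le_div_iff₀ (by positivity)] at h1
    linarith
  obtain ⟨M, hM⟩ : ∃ M : ℝ, M = k ^ (1 / pm N) * C0 := ⟨_, rfl⟩
  have hM0 : 0 < M := by rw [hM]; positivity
  obtain ⟨KV, hKV⟩ : ∃ KV : ℝ, KV = k ^ (1 / pm N) * (3 * C3 + B * k) := ⟨_, rfl⟩
  have hKV0 : 0 < KV := by rw [hKV]; positivity
  obtain ⟨K0, hK0⟩ : ∃ K0 : ℝ, K0 = (|D.lam1 i| + C0 * k) * M + M ^ pm N * M + KV := ⟨_, rfl⟩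
  have hK00 : 0 < K0 := by rw [hK0]; positivity
  have hVle : ∀ b ∈ I, ∀ x ∈ D.Om i, |S.sc b * S.u b x| ≤ KV * (1 - ‖x‖) := by
    intro b hb x hx
    rw [hKV]
    exact S.vv_le hN hB.le hC3.le h_bdd.1 hb (hI2 _ hb) x hx
  have hrhs : ∀ b ∈ I, ∀ x ∈ D.Om i, |S.rhs b x| ≤ K0 := by
    intro b hb x hx
    have h1 := S.rhs_bdd hN hb x hx
    rw [← hM] at h1
    have h2 : |S.lam' b| ≤ |D.lam1 i| + C0 * k := by
      have h3 := (S.sol _ hb).near1
      have h4 : C0 * S.sig b ≤ C0 * k := mul_le_mul_of_nonneg_left (S.sig_le _ hb) hC0.le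
      have h5 : S.lam' b = D.lam1 i + (S.lam' b - D.lam1 i) := by ring
      rw [h5]
      refine (abs_add_le _ _).trans ?_
      linarith
    have h6 := mul_le_mul_of_nonneg_right h2 hM0.le
    rw [hK0]
    linarith
  have hlamb : 0 < S.lam' b0 := by
    have h3 := (S.sol _ hb0I).near1
    have h4 : C0 * S.sig b0 ≤ C0 * k := mul_le_mul_of_nonneg_left (S.sig_le _ hb0I) hC0.le
    rw [abs_le] at h3
    linarith [h3.1, D.hlam]
  refine ⟨e, D.rho i, S.lam' b0, b0, r, S.vv b0, S.lam', rho_pos D i, rho_lt D i, hlamb, hrpos,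
    S.c_lam.mono hIcc, rfl, hne, fun bs hbs hlim => ?_⟩
  have hbsI : ∀ n, bs n ∈ I := fun n => hIcc (Ioc_subset_Icc_self (hbs n))
  have hbst : Tendsto bs atTop (𝓝[I] b0) :=
    tendsto_nhdsWithin_iff.2 ⟨hlim, Eventually.of_forall hbsI⟩
  have heppos : ∀ n, 0 < ep (bs n) := fun n => hb0pos _ (hbsI n) (hbs n).1
  refine ⟨{ e := e, ρ := D.rho i, lamb := S.lam' b0, vb := S.vv b0
            lam := fun n => S.lam' (bs n), v := fun n => S.vv (bs n)
            V := fun n x => S.sc (bs n) * S.u (bs n) x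
            K := C7 * K0 + KV + C4 + 1
            gam := gam, eps := fun n => S.sc (bs n) * ep (bs n), d₀ := d0
            he := he, hρ := rho_pos D i, hρ1 := rho_lt D i
            hlamb := hlamb, vb_mem := S.vv_mem hN hb0I, vb_sol := ?_, nondeg := hnd0
            vb_pos := ?_, vb_neg := ?_, lam_lim := ?_, lam_ne := ?_
            v_mem := fun n => S.vv_mem hN (hbsI n), v_sol := ?_, v_lim := ?_
            rep := fun n => S.vv_rep hN (hbsI n), hK := by positivity, V_le := ?_, hgam := hgam0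
            eps_pos := fun n => mul_pos (S.sc_pos (hbsI n)) (heppos n), eps_lim := ?_
            hd₀ := hd00, hd₀1 := by linarith, prof := ?_, hold := ?_ }, rfl, rfl, rfl, rfl, rfl⟩
  · -- `vb_sol`
    refine weak_congr (S.vv_weak hN hb0I) ?_
    filter_upwards [(S.vv_rep hN hb0I).2.2] with x hx _
    rw [hx]; rfl
  · obtain ⟨x, hx, hpos⟩ := (h_signs C0 I k S hkk3 b0 hb0I).1
    exact pos_ae (S.vv_rep hN hb0I) hx (mul_pos hsc0 hpos)
  · obtain ⟨x, hx, hneg⟩ := (h_signs C0 I k S hkk3 b0 hb0I).2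
    exact neg_ae (S.vv_rep hN hb0I) hx (mul_neg_of_pos_of_neg hsc0 hneg)
  · exact (S.c_lam b0 hb0I).tendsto.comp hbst
  · exact fun n => hne _ (hbs n)
  · -- `v_sol`
    intro n
    refine weak_congr (S.vv_weak hN (hbsI n)) ?_
    filter_upwards [(S.vv_rep hN (hbsI n)).2.2] with x hx _
    rw [hx]; rfl
  · exact (S.vv_cont b0 hb0I).tendsto.comp hbst
  · -- `V_le`
    intro n x hx
    refine (hVle _ (hbsI n) x hx).trans (mul_le_mul_of_nonneg_right ?_ (by linarith [hx.2]))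
    have : 0 < C7 * K0 := by positivity
    linarith
  · -- `eps_lim`
    have h1 : Tendsto (fun b => S.sc b * ep b) (𝓝[I] b0) (𝓝 (S.sc b0 * ep b0)) :=
      Tendsto.mul (S.sc_cont b0 hb0I) (hep_cont b0 hb0I)
    rw [hb00, mul_zero] at h1
    exact h1.comp hbst
  · -- `prof`
    intro n d hd
    have hdd1 : d ∈ Ioo 0 d1 := ⟨hd.1, hd.2.trans_le hd01⟩
    have hdpos : 0 < d := hd.1
    have h1 := hexp _ (hbsI n) d hdd1
    have h2 := hAA d hdd1
    obtain ⟨p1, p2, p3, -⟩ := hP _ (Ioc_subset_Icc_self (hbs n))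
    set s := S.sc (bs n) with hs
    have hs0 : 0 < s := S.sc_pos (hbsI n)
    have e1 : s * S.u (bs n) ((1 - d) • e) - (s * ep (bs n) * d - gam * d ^ 3) =
        s * (S.u (bs n) ((1 - d) • e) - (ep (bs n) * AA N (1 - d) + bs n * γ * d ^ 3)) +
        s * ep (bs n) * (AA N (1 - d) - d) + (s * bs n * γ + gam) * d ^ 3 := by ring
    have hd3 : 0 < d ^ 3 := by positivity
    -- the error term
    have q1 : |1 + bs n| ≤ 2 * (B * k) := by
      have h3 : 1 + bs n = (1 + b0) + (bs n - b0) := by ring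
      rw [h3]
      refine (abs_add_le _ _).trans ?_
      linarith
    have q2 : |1 + bs n| * C4 + |bs n| * (C4 * d) + K3 ≤
        2 * (B * k) * C4 + 2 * (C4 * d0) + K3 := by
      have h3 : |1 + bs n| * C4 ≤ 2 * (B * k) * C4 := mul_le_mul_of_nonneg_right q1 hC4.le
      have h4 : |bs n| * (C4 * d) ≤ 2 * (C4 * d0) :=
        mul_le_mul (hI2 _ (hbsI n)) (mul_le_mul_of_nonneg_left hd.2.le hC4.le)
          (by positivity) (by norm_num)
      linarith
    have q3 : 2 * (2 * (B * k) * C4 + 2 * (C4 * d0) + K3) ≤ η * γs / 4 := by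
      rw [hK3]; linarith
    have q4 : s * (|1 + bs n| * C4 + |bs n| * (C4 * d) + K3) ≤ 3 / 4 * η * gam := by
      have h3 : 0 ≤ 2 * (B * k) * C4 + 2 * (C4 * d0) + K3 := by positivity
      calc s * (|1 + bs n| * C4 + |bs n| * (C4 * d) + K3)
          ≤ s * (2 * (B * k) * C4 + 2 * (C4 * d0) + K3) := mul_le_mul_of_nonneg_left q2 hs0.le
        _ ≤ 2 * S.sc b0 * (2 * (B * k) * C4 + 2 * (C4 * d0) + K3) :=
            mul_le_mul_of_nonneg_right p2.le h3
        _ = S.sc b0 * (2 * (2 * (B * k) * C4 + 2 * (C4 * d0) + K3)) := by ring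
        _ ≤ S.sc b0 * (η * γs / 4) := mul_le_mul_of_nonneg_left q3 hsc0.le
        _ ≤ 3 / 4 * η * gam := by nlinarith
    have r1 : |s * (S.u (bs n) ((1 - d) • e) - (ep (bs n) * AA N (1 - d) + bs n * γ * d ^ 3))| ≤
        3 / 4 * η * gam * d ^ 3 := by
      rw [abs_mul, abs_of_pos hs0]
      calc s * |S.u (bs n) ((1 - d) • e) - (ep (bs n) * AA N (1 - d) + bs n * γ * d ^ 3)|
          ≤ s * ((|1 + bs n| * C4 + |bs n| * (C4 * d) + K3) * d ^ 3) :=
            mul_le_mul_of_nonneg_left h1 hs0.le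
        _ = s * (|1 + bs n| * C4 + |bs n| * (C4 * d) + K3) * d ^ 3 := by ring
        _ ≤ _ := mul_le_mul_of_nonneg_right q4 hd3.le
    have r2 : |s * ep (bs n) * (AA N (1 - d) - d)| ≤
        (C7 * K0 + KV + C4 + 1) * (s * ep (bs n)) * d ^ 2 := by
      have h3 : 0 < s * ep (bs n) := mul_pos hs0 (heppos n)
      rw [abs_mul, abs_of_pos h3]
      calc s * ep (bs n) * |AA N (1 - d) - d| ≤ s * ep (bs n) * (C4 * d ^ 2) :=
            mul_le_mul_of_nonneg_left h2 h3.le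
        _ = C4 * (s * ep (bs n)) * d ^ 2 := by ring
        _ ≤ _ := by
            refine mul_le_mul_of_nonneg_right (mul_le_mul_of_nonneg_right ?_ h3.le) (by positivity)
            have : 0 < C7 * K0 := by positivity
            linarith
    have r3 : |(s * bs n * γ + gam) * d ^ 3| ≤ η / 4 * gam * d ^ 3 := by
      rw [abs_mul, abs_of_pos hd3]
      exact mul_le_mul_of_nonneg_right p3.le hd3.le
    change |s * S.u (bs n) ((1 - d) • e) - (s * ep (bs n) * d - gam * d ^ 3)| ≤ _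
    rw [e1]
    refine (abs_add_three _ _ _).trans ?_
    linarith
  · -- `hold`
    intro n d hd x hx
    have hdd1 : d ∈ Ioo 0 d1 := ⟨hd.1, hd.2.trans_le hd01⟩
    have hd1' : d < 1 := hdd1.2.trans_le hd11
    have hnx : ‖(1 - d) • e‖ = 1 - d := S.norm_axis (by linarith)
    have h1 := hhold (S.vv (bs n)) (fun x => S.sc (bs n) * S.u (bs n) x) (S.rhs (bs n)) K0 hK00.le
      (S.vv_rep hN (hbsI n)) (Br.meas_of_cont (S.rhs_cont hN (hbsI n))) (S.vv_weak hN (hbsI n))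
      (Eventually.of_forall (hrhs _ (hbsI n)))
      (fun x hx => (hVle _ (hbsI n) x hx).trans (mul_le_mul_of_nonneg_right
        (by rw [hK0]; have : 0 < (|D.lam1 i| + C0 * k) * M + M ^ pm N * M := by positivity
            linarith) (by linarith [hx.2])))
      ((1 - d) • e) (by rw [hnx]; linarith [hd.2]) (by rw [hnx]; linarith [hd.1]) x hx
    refine h1.trans (mul_le_mul_of_nonneg_right ?_ (Real.rpow_nonneg (norm_nonneg _) _))
    linarith

/-- **The family, for all parameters in a one-sided neighbourhood.** -/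
theorem fam_strong (hN : 3 ≤ N) (hN5 : N ≤ 5) {η : ℝ} (hη : 0 < η) :
    ∃ (e : E N) (ρ lamb : ℝ) (vb : LV N) (s δ : ℝ), (s = 1 ∨ s = -1) ∧ 0 < δ ∧ 0 < lamb ∧
      0 < ρ ∧ ρ < 1 ∧ ∀ lam : ℕ → ℝ, Tendsto lam atTop (𝓝 lamb) →
        (∀ n, 0 < s * (lam n - lamb) ∧ s * (lam n - lamb) < δ) →
        ∃ F : Fam N η, F.e = e ∧ F.ρ = ρ ∧ F.lamb = lamb ∧ F.vb = vb ∧ F.lam = lam := by
  obtain ⟨e, ρ, lamb, b0, r, vb, lam', hρ, hρ1, hlamb, hr, hcont, h0, hne, hF⟩ :=
    fam_core hN hN5 hη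
  have hle : b0 ≤ b0 + r := by linarith
  have hend : lam' (b0 + r) ≠ lamb := hne _ ⟨by linarith, le_rfl⟩
  obtain ⟨s, hs, hspos⟩ : ∃ s : ℝ, (s = 1 ∨ s = -1) ∧ 0 < s * (lam' (b0 + r) - lamb) := by
    rcases lt_or_gt_of_ne hend with h | h
    · exact ⟨-1, Or.inr rfl, by linarith⟩
    · exact ⟨1, Or.inl rfl, by linarith⟩
  have hss : s * s = 1 := by rcases hs with rfl | rfl <;> norm_num
  have hcs : ContinuousOn (fun b => s * (lam' b - lamb)) (Icc b0 (b0 + r)) :=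
    (hcont.sub continuousOn_const).const_mul s
  refine ⟨e, ρ, lamb, vb, s, s * (lam' (b0 + r) - lamb), hs, hspos, hlamb, hρ, hρ1,
    fun lam hlim hlam => ?_⟩
  -- solve for `b`
  have hsol : ∀ n, ∃ b ∈ Ioc b0 (b0 + r), lam' b = lam n := by
    intro n
    have h1 := intermediate_value_Icc hle hcs
    have h2 : s * (lam n - lamb) ∈ Icc (s * (lam' b0 - lamb)) (s * (lam' (b0 + r) - lamb)) := by
      rw [h0, sub_self, mul_zero]
      exact ⟨(hlam n).1.le, (hlam n).2.le⟩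
    obtain ⟨b, hb, hb'⟩ := h1 h2
    have h3 : lam' b = lam n := by
      have h4 : s * (s * (lam' b - lamb)) = s * (s * (lam n - lamb)) := by
        simp only at hb'
        rw [hb']
      rw [← mul_assoc, ← mul_assoc, hss, one_mul, one_mul] at h4
      linarith
    refine ⟨b, ⟨lt_of_le_of_ne hb.1 fun h => ?_, hb.2⟩, h3⟩
    have h5 := (hlam n).1
    rw [← h3, ← h, h0, sub_self, mul_zero] at h5
    exact lt_irrefl _ h5
  choose bs hbs hbl using hsol
  have hbt : Tendsto bs atTop (𝓝 b0) := by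
    rw [Metric.tendsto_nhds]
    intro ε hε
    by_cases hcase : b0 + r < b0 + ε
    · refine Eventually.of_forall fun n => ?_
      rw [Real.dist_eq, abs_of_pos (by linarith [(hbs n).1])]
      linarith [(hbs n).2]
    · have hK : IsCompact (Icc (b0 + ε) (b0 + r)) := isCompact_Icc
      have hKne : (Icc (b0 + ε) (b0 + r)).Nonempty := nonempty_Icc.2 (not_lt.1 hcase)
      have hsub : Icc (b0 + ε) (b0 + r) ⊆ Icc b0 (b0 + r) := Icc_subset_Icc_left (by linarith)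
      obtain ⟨b1, hb1, hmin⟩ := hK.exists_isMinOn hKne
        ((hcont.sub (continuousOn_const (c := lamb))).abs.mono hsub)
      have hpos : 0 < |lam' b1 - lamb| :=
        abs_pos.2 (sub_ne_zero.2 (hne b1 ⟨by linarith [hb1.1], hb1.2⟩))
      have h1 : Tendsto (fun n => |lam n - lamb|) atTop (𝓝 0) := by
        simpa using (hlim.sub_const lamb).abs
      filter_upwards [h1.eventually (gt_mem_nhds hpos)] with n hn
      rw [Real.dist_eq, abs_of_pos (by linarith [(hbs n).1])]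
      by_contra hcon
      push Not at hcon
      have h2 : bs n ∈ Icc (b0 + ε) (b0 + r) := ⟨by linarith, (hbs n).2⟩
      have h3 : |lam' b1 - lamb| ≤ |lam' (bs n) - lamb| := hmin h2
      rw [hbl n] at h3
      linarith
  obtain ⟨F, h1, h2, h3, h4, h5⟩ := hF bs hbs hbt
  exact ⟨F, h1, h2, h3, h4, by rw [h5]; funext n; exact hbl n⟩

/-- **The family.** -/
theorem fam_main (hN : 3 ≤ N) (hN5 : N ≤ 5) {η : ℝ} (hη : 0 < η) : Nonempty (Fam N η) := by
  obtain ⟨e, ρ, lamb, b0, r, vb, lam', hρ, hρ1, hlamb, hr, hcont, h0, hne, hF⟩ :=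
    fam_core hN hN5 hη
  obtain ⟨F, -⟩ := hF (fun n => b0 + (b0 + r - b0) / ((n : ℝ) + 1)) (fun n => by
    have hn : (0 : ℝ) < (n : ℝ) + 1 := by positivity
    have h1 : 0 < (b0 + r - b0) / ((n : ℝ) + 1) := div_pos (by linarith) hn
    have h2 : (b0 + r - b0) / ((n : ℝ) + 1) ≤ b0 + r - b0 := by
      rw [div_le_iff₀ hn]
      have : (0 : ℝ) ≤ n := Nat.cast_nonneg n
      nlinarith
    exact ⟨by linarith, by linarith⟩) (FF.seq_tendsto b0 (b0 + r))
  exact ⟨F⟩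

end Pool.Agent.helper13.BN
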