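import Pool.Agent.helper23.BN.Basic
import Pool.Agent.helper58.BN.Solve
import Pool.Agent.helper22.BN.AxSp
import Pool.Agent.helper41.BN.Pw
import Pool.Agent.helper13.BN.Defs2

/-!
# MP_94a57f_an, module C11 (1): elementary lemmas
-/

set_option autoImplicit false
open MeasureTheory Filter Topology Set Metric
open scoped ContDiff Gradient RealInnerProductSpace ENNReal

noncomputable section
namespace Pool.Agent.helper13.BN
namespace FF
variable {N : ℕ}

lemma isOpen_ann (ρ : ℝ) : IsOpen (ann N ρ) :=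
  (isOpen_lt continuous_const continuous_norm).inter (isOpen_lt continuous_norm continuous_const)

lemma measurableSet_ann (ρ : ℝ) : MeasurableSet (ann N ρ) := (isOpen_ann ρ).measurableSet

lemma ann_sub_ball (ρ : ℝ) : ann N ρ ⊆ ball (0 : E N) 1 := fun x hx => by
  rw [mem_ball_zero_iff]; exact hx.2

lemma ne_zero_of_ann {ρ : ℝ} (hρ : 0 < ρ) {x : E N} (hx : x ∈ ann N ρ) : x ≠ 0 := by
  rintro rfl
  have := hx.1
  rw [norm_zero] at this
  linarith

lemma volume_ann_lt (ρ : ℝ) : volume (ann N ρ) < (⊤ : ℝ≥0∞) :=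
  (measure_mono (ann_sub_ball ρ)).trans_lt measure_ball_lt_top

instance (ρ : ℝ) : IsFiniteMeasure (volume.restrict (ann N ρ)) :=
  ⟨by rw [Measure.restrict_apply_univ]; exact volume_ann_lt ρ⟩

lemma pm_pos (hN : 3 ≤ N) : 0 < pm N := by
  have : (3 : ℝ) ≤ N := by exact_mod_cast hN
  unfold pm
  apply div_pos (by norm_num) (by linarith)

lemma pm_ge (hN : 3 ≤ N) (hN5 : N ≤ 5) : 4 / 3 ≤ pm N := by
  have h1 : (3 : ℝ) ≤ N := by exact_mod_cast hN
  have h2 : (N : ℝ) ≤ 5 := by exact_mod_cast hN5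
  unfold pm
  rw [div_le_div_iff₀ (by norm_num) (by linarith)]
  linarith

lemma ts_ge (hN : 3 ≤ N) (hN5 : N ≤ 5) : 3 ≤ ts N := by
  have h1 : (3 : ℝ) ≤ N := by exact_mod_cast hN
  have h2 : (N : ℝ) ≤ 5 := by exact_mod_cast hN5
  unfold ts
  rw [le_div_iff₀ (by linarith)]
  linarith

lemma td_pos (hN : 3 ≤ N) : 1 ≤ td N := by
  have h1 : (3 : ℝ) ≤ N := by exact_mod_cast hN
  unfold td
  rw [le_div_iff₀ (by linarith)]
  linarith

lemma td_le (hN : 3 ≤ N) (hN5 : N ≤ 5) : 2 * td N ≤ ts N := by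
  have h1 : (3 : ℝ) ≤ N := by exact_mod_cast hN
  have h2 : (N : ℝ) ≤ 5 := by exact_mod_cast hN5
  unfold td ts
  rw [← mul_div_assoc, div_le_div_iff₀ (by linarith) (by linarith)]
  nlinarith

/-- congruence for the right-hand side -/
lemma weak_congr {Ω : Set (E N)} {w : LV N} {g g' : E N → ℝ} (h : Weak Ω w g)
    (hgg : ∀ᵐ x, x ∈ Ω → g x = g' x) : Weak Ω w g' := by
  refine ⟨h.1, fun φ W hφ hW => ?_⟩
  rw [h.2 φ W hφ hW]
  refine integral_congr_ae ?_
  filter_upwards [hgg] with x hx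
  by_cases hxΩ : x ∈ Ω
  · rw [hx hxΩ]
  · have : φ x = 0 := by
      by_contra h0
      exact hxΩ (hφ.2.2 (subset_tsupport _ h0))
    rw [this, mul_zero, mul_zero]

/-- bounded functions -/
lemma Mq_bdd {q : ℝ} {ρ K : ℝ} {g : E N → ℝ}
    (hm : AEStronglyMeasurable g (volume.restrict (ann N ρ)))
    (hb : ∀ᵐ x, x ∈ ann N ρ → |g x| ≤ K) : Mq q (ann N ρ) g := by
  refine MemLp.of_bound hm K ?_
  rw [ae_restrict_iff' (measurableSet_ann ρ)]
  filter_upwards [hb] with x hx h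
  rw [Real.norm_eq_abs]
  exact hx h

lemma weak_add (hN : 3 ≤ N) {ρ : ℝ} {w w' : LV N} {g g' : E N → ℝ}
    (hg : Mq (td N) (ann N ρ) g) (hg' : Mq (td N) (ann N ρ) g')
    (h : Weak (ann N ρ) w g) (h' : Weak (ann N ρ) w' g') :
    Weak (ann N ρ) (w + w') (fun x => g x + g' x) := by
  rw [weak_iff_T hN (measurableSet_ann ρ) hg] at h
  rw [weak_iff_T hN (measurableSet_ann ρ) hg'] at h'
  have hadd : Mq (td N) (ann N ρ) (fun x => g x + g' x) := hg.add hg'
  rw [weak_iff_T hN (measurableSet_ann ρ) hadd,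
    T_add hN (measurableSet_ann ρ) hg hg', ← h, ← h']

lemma weak_sub (hN : 3 ≤ N) {ρ : ℝ} {w w' : LV N} {g g' : E N → ℝ}
    (hg : Mq (td N) (ann N ρ) g) (hg' : Mq (td N) (ann N ρ) g')
    (h : Weak (ann N ρ) w g) (h' : Weak (ann N ρ) w' g') :
    Weak (ann N ρ) (w - w') (fun x => g x - g' x) := by
  rw [weak_iff_T hN (measurableSet_ann ρ) hg] at h
  rw [weak_iff_T hN (measurableSet_ann ρ) hg'] at h'
  have hadd : Mq (td N) (ann N ρ) (fun x => g x - g' x) := hg.sub hg'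
  rw [weak_iff_T hN (measurableSet_ann ρ) hadd,
    T_sub hN (measurableSet_ann ρ) hg hg', ← h, ← h']

lemma weak_smul (hN : 3 ≤ N) {ρ : ℝ} (c : ℝ) {w : LV N} {g : E N → ℝ}
    (hg : Mq (td N) (ann N ρ) g) (h : Weak (ann N ρ) w g) :
    Weak (ann N ρ) (c • w) (fun x => c * g x) := by
  rw [weak_iff_T hN (measurableSet_ann ρ) hg] at h
  rw [weak_iff_T hN (measurableSet_ann ρ) (hg.const_mul c),
    T_smul hN (measurableSet_ann ρ) c hg, ← h]

lemma mem_univ_of_DD {Ω : Set (E N)} {w : LV N} (h : w ∈ DD Ω) : w ∈ DD (univ : Set (E N)) :=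
  DD_mono (subset_univ _) h

lemma XS_DD (hN : 3 ≤ N) {e : E N} {ρ : ℝ} {w : LV N} (h : w ∈ XS e ρ) : w ∈ DD (ann N ρ) :=
  ((mem_XS hN).1 h).1

/-- continuity of the cylinder functions -/
lemma cyl_cont {e : E N} {y q : ℝ → ℝ} (hy : Continuous y) (hq : Continuous q) :
    ContinuousOn (cyl N e y q) {0}ᶜ := by
  unfold cyl
  have h0 : ContinuousOn (fun x : E N => ‖x‖) {0}ᶜ := continuous_norm.continuousOn
  have hne : ∀ x ∈ ({0}ᶜ : Set (E N)), ‖x‖ ≠ 0 := fun x hx => norm_ne_zero_iff.2 hx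
  refine ContinuousOn.mul (ContinuousOn.mul ?_ ?_) ?_
  · exact h0.rpow_const fun x hx => Or.inl (hne x hx)
  · exact hy.comp_continuousOn (h0.log hne).neg
  · refine hq.comp_continuousOn (ContinuousOn.div ?_ h0 hne)
    exact (continuous_id.inner continuous_const).continuousOn

lemma nl_zero : nl N 0 = 0 := by
  unfold nl; rw [mul_zero]

lemma continuous_nl (hN : 3 ≤ N) : Continuous (nl N) := by
  unfold nl
  refine (continuous_abs.rpow_const fun x => Or.inr (pm_pos hN).le).mul continuous_id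

lemma nl_le (hN : 3 ≤ N) {u K : ℝ} (h : |u| ≤ K) : |nl N u| ≤ K ^ pm N * K := by
  unfold nl
  have h0 : 0 ≤ K := (abs_nonneg u).trans h
  rw [abs_mul, abs_of_nonneg (Real.rpow_nonneg (abs_nonneg _) _)]
  exact mul_le_mul (Real.rpow_le_rpow (abs_nonneg _) h (pm_pos hN).le) h (abs_nonneg _)
    (Real.rpow_nonneg h0 _)

lemma dnl_le (hN : 3 ≤ N) {u K : ℝ} (h : |u| ≤ K) : |dnl N u| ≤ (pm N + 1) * K ^ pm N := by
  unfold dnl
  rw [abs_mul, abs_of_nonneg (Real.rpow_nonneg (abs_nonneg _) _),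
    abs_of_nonneg (by linarith [pm_pos hN])]
  exact mul_le_mul_of_nonneg_left (Real.rpow_le_rpow (abs_nonneg _) h (pm_pos hN).le)
    (by linarith [pm_pos hN])

lemma nl_diff_le (hN : 3 ≤ N) (hN5 : N ≤ 5) (K : ℝ) : ∃ Λ : ℝ, 0 < Λ ∧ ∀ u v : ℝ, |u| ≤ K →
    |v| ≤ K → |nl N u - nl N v| ≤ Λ * |u - v| := by
  obtain ⟨C, hC, h⟩ := nl_lip hN hN5
  refine ⟨C * (|K| ^ pm N + |K| ^ pm N) + 1, by positivity, fun u v hu hv => (h u v).trans ?_⟩
  have h0 : K ≤ |K| := le_abs_self K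
  have h1 : |u| ^ pm N ≤ |K| ^ pm N :=
    Real.rpow_le_rpow (abs_nonneg _) (hu.trans h0) (pm_pos hN).le
  have h2 : |v| ^ pm N ≤ |K| ^ pm N :=
    Real.rpow_le_rpow (abs_nonneg _) (hv.trans h0) (pm_pos hN).le
  have h3 : C * (|u| ^ pm N + |v| ^ pm N) ≤ C * (|K| ^ pm N + |K| ^ pm N) :=
    mul_le_mul_of_nonneg_left (add_le_add h1 h2) hC.le
  calc C * (|u| ^ pm N + |v| ^ pm N) * |u - v|
      ≤ C * (|K| ^ pm N + |K| ^ pm N) * |u - v| :=
        mul_le_mul_of_nonneg_right h3 (abs_nonneg _)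
    _ ≤ (C * (|K| ^ pm N + |K| ^ pm N) + 1) * |u - v| :=
        mul_le_mul_of_nonneg_right (by linarith) (abs_nonneg _)

/-- scaling of the nonlinearities -/
lemma nl_smul {s u : ℝ} (hs : 0 < s) : nl N (s * u) = s ^ pm N * (s * nl N u) := by
  rw [nl_mul s u hs, Real.rpow_add hs, Real.rpow_one]
  ring

lemma dnl_smul {s u : ℝ} (hs : 0 < s) : dnl N (s * u) = s ^ pm N * dnl N u := by
  unfold dnl
  rw [abs_mul, abs_of_pos hs, Real.mul_rpow hs.le (abs_nonneg u)]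
  ring

lemma rpow_inv_pm (hN : 3 ≤ N) {σ : ℝ} (hσ : 0 < σ) : (σ ^ (1 / pm N)) ^ pm N = σ := by
  rw [← Real.rpow_mul hσ.le, one_div, inv_mul_cancel₀ (pm_pos hN).ne', Real.rpow_one]

/-- sup bound by the `L³` norm of the right-hand side, pointwise for continuous representatives -/
lemma rep_le_of_ae {ρ : ℝ} {v : E N → ℝ} (hv : ContinuousOn v (ann N ρ)) {K : ℝ}
    (h : ∀ᵐ x, x ∈ ann N ρ → |v x| ≤ K) : ∀ x ∈ ann N ρ, |v x| ≤ K := by
  intro x hx
  by_contra hcon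
  push Not at hcon
  have hc : ContinuousAt (fun y => |v y|) x :=
    (hv.continuousAt ((isOpen_ann ρ).mem_nhds hx)).abs
  have h1 : ∀ᶠ y in 𝓝 x, K < |v y| := hc.eventually (lt_mem_nhds hcon)
  have h2 : ∀ᶠ y in 𝓝 x, y ∈ ann N ρ := (isOpen_ann ρ).mem_nhds hx
  obtain ⟨t, ht, hto, hxt⟩ := _root_.mem_nhds_iff.1 (h1.and h2)
  have h3 : volume t = 0 := by
    refine measure_mono_null (fun y hy => ?_) (ae_iff.1 h)
    have := ht hy
    simp only [mem_setOf_eq, Classical.not_imp, not_le]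
    exact ⟨this.2, this.1⟩
  have h4 := hto.measure_pos volume ⟨x, hxt⟩
  exact h4.ne' h3

end FF
end Pool.Agent.helper13.BN
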