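import Pool.Agent.helper67.BN.FF1
import Pool.Agent.helper74.BN.Sup
import Pool.Agent.helper38.BN.Eig
import Pool.Agent.helper73.BN.Zonal
import Pool.Agent.helper52.BN.Ode

/-!
# MP_94a57f_an, module C11 (2): continuity of the branch in the parameter
-/

set_option autoImplicit false
open MeasureTheory Filter Topology Set Metric
open scoped ContDiff Gradient RealInnerProductSpace ENNReal

noncomputable section
namespace Pool.Agent.helper13.BN
namespace FF
variable {N : ℕ}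

lemma nq_le_of_le {ρ A M : ℝ} {f h : E N → ℝ} (hA : 0 ≤ A) (hM : 0 ≤ M)
    (hh : Mq 3 (ann N ρ) h) (hb : ∀ x ∈ ann N ρ, |f x| ≤ A + M * |h x|) :
    nq 3 (ann N ρ) f ≤ A * nq 3 (ann N ρ) (fun _ => 1) + M * nq 3 (ann N ρ) h := by
  have h3 : (1 : ℝ≥0∞) ≤ ENNReal.ofReal 3 := by
    rw [← ENNReal.ofReal_one]; exact ENNReal.ofReal_le_ofReal (by norm_num)
  have h1 : eLpNorm f (ENNReal.ofReal 3) (volume.restrict (ann N ρ)) ≤
      eLpNorm (fun x => A • (1 : ℝ) + M • |h x|) (ENNReal.ofReal 3)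
        (volume.restrict (ann N ρ)) := by
    refine eLpNorm_mono_ae_real ?_
    filter_upwards [ae_restrict_mem (measurableSet_ann ρ)] with x hx
    rw [Real.norm_eq_abs]
    simpa using hb x hx
  have hm1 : AEStronglyMeasurable (fun _ : E N => A • (1 : ℝ)) (volume.restrict (ann N ρ)) :=
    aestronglyMeasurable_const
  have hm2 : AEStronglyMeasurable (fun x : E N => M • |h x|) (volume.restrict (ann N ρ)) :=
    (hh.1.norm.const_smul M)
  have h2 := eLpNorm_add_le hm1 hm2 h3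
  have h4 : eLpNorm (fun _ : E N => A • (1 : ℝ)) (ENNReal.ofReal 3) (volume.restrict (ann N ρ)) =
      ENNReal.ofReal A * eLpNorm (fun _ : E N => (1 : ℝ)) (ENNReal.ofReal 3)
        (volume.restrict (ann N ρ)) := by
    have := eLpNorm_const_smul A (fun _ : E N => (1 : ℝ)) (ENNReal.ofReal 3)
      (volume.restrict (ann N ρ))
    rw [Real.enorm_of_nonneg hA] at this
    exact this
  have h5 : eLpNorm (fun x : E N => M • |h x|) (ENNReal.ofReal 3) (volume.restrict (ann N ρ)) =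
      ENNReal.ofReal M * eLpNorm h (ENNReal.ofReal 3) (volume.restrict (ann N ρ)) := by
    have := eLpNorm_const_smul M (fun x : E N => |h x|) (ENNReal.ofReal 3)
      (volume.restrict (ann N ρ))
    rw [Real.enorm_of_nonneg hM] at this
    rw [← eLpNorm_norm h]
    exact this
  have hfin1 : eLpNorm (fun _ : E N => (1 : ℝ)) (ENNReal.ofReal 3) (volume.restrict (ann N ρ)) ≠ ⊤ :=
    (memLp_const (1 : ℝ)).2.ne
  have hfin2 := hh.2.ne
  have h6 : eLpNorm f (ENNReal.ofReal 3) (volume.restrict (ann N ρ)) ≤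
      ENNReal.ofReal A * eLpNorm (fun _ : E N => (1 : ℝ)) (ENNReal.ofReal 3)
        (volume.restrict (ann N ρ)) +
      ENNReal.ofReal M * eLpNorm h (ENNReal.ofReal 3) (volume.restrict (ann N ρ)) := by
    rw [← h4, ← h5]
    exact h1.trans h2
  unfold nq
  have h7 : ENNReal.ofReal A * eLpNorm (fun _ : E N => (1 : ℝ)) (ENNReal.ofReal 3)
        (volume.restrict (ann N ρ)) ≠ ⊤ := ENNReal.mul_ne_top ENNReal.ofReal_ne_top hfin1
  have h8 : ENNReal.ofReal M * eLpNorm h (ENNReal.ofReal 3) (volume.restrict (ann N ρ)) ≠ ⊤ :=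
    ENNReal.mul_ne_top ENNReal.ofReal_ne_top hfin2
  refine (ENNReal.toReal_mono (ENNReal.add_ne_top.2 ⟨h7, h8⟩) h6).trans ?_
  rw [ENNReal.toReal_add h7 h8, ENNReal.toReal_mul, ENNReal.toReal_mul,
    ENNReal.toReal_ofReal hA, ENNReal.toReal_ofReal hM]

/-- the branch of solutions for one annulus -/
structure Br (D : Cr N) (e : E N) (i : ℕ) (C B k : ℝ) (I : Set ℝ) where
  om : ℝ → LV N
  sig : ℝ → ℝ
  lam' : ℝ → ℝ
  v : ℝ → E N → ℝ
  g : ℝ → E N → ℝ
  he : ‖e‖ = 1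
  c_om : ContinuousOn om I
  c_sig : ContinuousOn sig I
  c_lam : ContinuousOn lam' I
  sig_le : ∀ b ∈ I, sig b ≤ k
  sol : ∀ b ∈ I, SolB D e i C b (om b) (sig b) (lam' b)
  rep : ∀ b ∈ I, IsRep (D.Om i) (om b) (v b)
  wk : ∀ b ∈ I, Weak (D.Om i) (om b) (g b)
  gcont : ∀ b ∈ I, ContinuousOn (g b) (D.Om i)
  g_le : ∀ b ∈ I, ∀ x ∈ D.Om i, |g b x| ≤ B * sig b * (1 - ‖x‖)
  v_le : ∀ b ∈ I, ∀ x ∈ D.Om i, |v b x| ≤ B * sig b * (1 - ‖x‖)
  tan : ∀ b ∈ I, ∀ (R : E N ≃ₗᵢ[ℝ] E N) (k : ℝ), (∀ x, ‖R x - x‖ ≤ k * ‖x‖) → ∀ x ∈ D.Om i,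
    |v b (R x) + v b (R.symm x) - 2 * v b x| ≤ B * sig b * k ^ 2 * (1 - ‖x‖)

lemma rho_pos (D : Cr N) (i : ℕ) : 0 < D.rho i := Real.exp_pos _

lemma rho_lt (D : Cr N) (i : ℕ) : D.rho i < 1 := by
  unfold Cr.rho
  rw [Real.exp_lt_one_iff]
  linarith [D.posL i]

section Eig
variable (D : Cr N) {e : E N}

lemma F1_spec (hN : 3 ≤ N) (he : ‖e‖ = 1) (i : ℕ) : D.F1 e i ∈ XS e (D.rho i) ∧
    fn (D.F1 e i) =ᵐ[volume] (D.Om i).indicator (D.f1 e i) ∧
    Weak (D.Om i) (D.F1 e i) (fun x => D.lam1 i * D.f1 e i x) := by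
  have h := eig_spec hN he (j := 0) (D.posL i) (lam := D.lam1 i) (by
    rw [Nat.cast_zero, zero_add]; exact D.z1 i)
  rw [Nat.cast_zero, zero_add] at h
  exact h

lemma F2_spec (hN : 3 ≤ N) (he : ‖e‖ = 1) (i : ℕ) : D.F2 e i ∈ XS e (D.rho i) ∧
    fn (D.F2 e i) =ᵐ[volume] (D.Om i).indicator (D.f2 e i) ∧
    Weak (D.Om i) (D.F2 e i) (fun x => D.lam2 i * D.f2 e i x) :=
  eig_spec hN he (D.posL i) (D.z2 i)

lemma f1_cont (i : ℕ) : ContinuousOn (D.f1 e i) {0}ᶜ :=
  cyl_cont (yf_contDiff _ _).continuous (Pz_contDiff N 0).continuous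

lemma f2_cont (i : ℕ) : ContinuousOn (D.f2 e i) {0}ᶜ :=
  cyl_cont (yf_contDiff _ _).continuous (Pz_contDiff N D.l).continuous

lemma Om_sub (i : ℕ) : D.Om i ⊆ ({0}ᶜ : Set (E N)) := fun _ hx => ne_zero_of_ann (rho_pos D i) hx

end Eig

namespace Br
variable {D : Cr N} {e : E N} {i : ℕ} {C B k : ℝ} {I : Set ℝ}

/-- the solution (before scaling) -/
def U (S : Br D e i C B k I) (b : ℝ) : LV N := D.F1 e i + b • D.F2 e i + S.om b

/-- its representative -/
def u (S : Br D e i C B k I) (b : ℝ) (x : E N) : ℝ :=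
  (D.Om i).indicator (fun x => D.f1 e i x + b * D.f2 e i x) x + S.v b x

lemma u_of_mem (S : Br D e i C B k I) (b : ℝ) {x : E N} (hx : x ∈ D.Om i) :
    S.u b x = D.f1 e i x + b * D.f2 e i x + S.v b x := by
  unfold u; rw [indicator_of_mem hx]

lemma U_mem (S : Br D e i C B k I) (hN : 3 ≤ N) {b : ℝ} (hb : b ∈ I) : S.U b ∈ XS e (D.rho i) :=
  (XS e (D.rho i)).add_mem ((XS e (D.rho i)).add_mem (F1_spec D hN S.he i).1
    ((XS e (D.rho i)).smul_mem b (F2_spec D hN S.he i).1)) (S.sol b hb).mem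

lemma U_rep (S : Br D e i C B k I) (hN : 3 ≤ N) {b : ℝ} (hb : b ∈ I) :
    IsRep (D.Om i) (S.U b) (S.u b) := by
  have h1 := F1_spec D hN S.he i
  have h2 := F2_spec D hN S.he i
  have h3 := S.rep b hb
  refine ⟨?_, fun x hx => ?_, ?_⟩
  · refine ContinuousOn.congr (f := fun x => D.f1 e i x + b * D.f2 e i x + S.v b x) ?_
      (fun x hx => S.u_of_mem b hx)
    exact (((f1_cont D i).mono (Om_sub D i)).add
      (((f2_cont D i).mono (Om_sub D i)).const_mul b)).add h3.1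
  · unfold u
    rw [indicator_of_notMem hx, h3.2.1 x hx, add_zero]
  · have m1 := mem_univ_of_DD (XS_DD hN h1.1)
    have m2 := mem_univ_of_DD (XS_DD hN h2.1)
    have m3 := mem_univ_of_DD (XS_DD hN (S.sol b hb).mem)
    have e1 := fn_add hN (Submodule.add_mem _ m1 (Submodule.smul_mem _ b m2)) m3
    have e2 := fn_add hN m1 (Submodule.smul_mem _ b m2)
    have e3 := fn_smul hN b m2
    unfold U
    filter_upwards [e1, e2, e3, h1.2.1, h2.2.1, h3.2.2] with x a1 a2 a3 a4 a5 a6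
    rw [a1, a2, a3, a4, a5, a6]
    unfold u
    by_cases hx : x ∈ D.Om i
    · rw [indicator_of_mem hx, indicator_of_mem hx, indicator_of_mem hx]
    · rw [indicator_of_notMem hx, indicator_of_notMem hx, indicator_of_notMem hx]
      ring

lemma u_bdd (S : Br D e i C B k I) (hN : 3 ≤ N) {b : ℝ} (hb : b ∈ I) :
    ∀ x ∈ D.Om i, |S.u b x| ≤ C := by
  have h := S.U_rep hN hb
  refine rep_le_of_ae h.1 ?_
  filter_upwards [(S.sol b hb).bdd, h.2.2] with x hx hx' _
  rw [← hx']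
  exact hx

lemma U_cont (S : Br D e i C B k I) : ContinuousOn S.U I := by
  unfold U
  exact (continuousOn_const.add (continuousOn_id.smul continuousOn_const)).add S.c_om

/-- the right-hand side of the equation of `om` -/
def G (S : Br D e i C B k I) (b : ℝ) (x : E N) : ℝ :=
  (S.lam' b * S.u b x + S.sig b * nl N (S.u b x)) -
    (D.lam1 i * D.f1 e i x + b * (D.lam2 i * D.f2 e i x))

lemma f1_bdd (D : Cr N) (e : E N) (i : ℕ) : ∃ M : ℝ, 0 < M ∧ ∀ x ∈ D.Om i, |D.f1 e i x| ≤ M ∧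
    |D.f2 e i x| ≤ M := by
  have hK : IsCompact {x : E N | D.rho i ≤ ‖x‖ ∧ ‖x‖ ≤ 1} := by
    refine (isCompact_closedBall (0 : E N) 1).of_isClosed_subset ?_ ?_
    · exact (isClosed_le continuous_const continuous_norm).inter
        (isClosed_le continuous_norm continuous_const)
    · intro x hx
      rw [mem_closedBall_zero_iff]; exact hx.2
  have hsub : {x : E N | D.rho i ≤ ‖x‖ ∧ ‖x‖ ≤ 1} ⊆ {0}ᶜ := by
    rintro x hx rfl
    have := hx.1
    rw [norm_zero] at this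
    exact absurd (rho_pos D i) (not_lt.2 this)
  obtain ⟨M1, h1⟩ := hK.exists_bound_of_continuousOn ((f1_cont D (e := e) i).mono hsub)
  obtain ⟨M2, h2⟩ := hK.exists_bound_of_continuousOn ((f2_cont D (e := e) i).mono hsub)
  refine ⟨|M1| + |M2| + 1, by positivity, fun x hx => ?_⟩
  have hx' : x ∈ {x : E N | D.rho i ≤ ‖x‖ ∧ ‖x‖ ≤ 1} := ⟨hx.1.le, hx.2.le⟩
  have a1 := h1 x hx'
  have a2 := h2 x hx'
  rw [Real.norm_eq_abs] at a1 a2
  have b1 := le_abs_self M1
  have b2 := le_abs_self M2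
  have c1 := abs_nonneg M1
  have c2 := abs_nonneg M2
  constructor <;> linarith

lemma meas_of_cont {ρ : ℝ} {f : E N → ℝ} (h : ContinuousOn f (ann N ρ)) :
    AEStronglyMeasurable f (volume.restrict (ann N ρ)) :=
  h.aestronglyMeasurable (measurableSet_ann ρ)

lemma G_cont (S : Br D e i C B k I) (hN : 3 ≤ N) {b : ℝ} (hb : b ∈ I) :
    ContinuousOn (S.G b) (D.Om i) := by
  have h := (S.U_rep hN hb).1
  unfold G
  refine ContinuousOn.sub ((h.const_mul _).add
    (((continuous_nl hN).comp_continuousOn h).const_mul _)) ?_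
  exact (((f1_cont D i).mono (Om_sub D i)).const_mul _).add
    ((((f2_cont D i).mono (Om_sub D i)).const_mul _).const_mul _)

lemma rhs_Mq (S : Br D e i C B k I) (hN : 3 ≤ N) {b : ℝ} (hb : b ∈ I) (q : ℝ) :
    Mq q (D.Om i) (fun x => S.lam' b * S.u b x + S.sig b * nl N (S.u b x)) := by
  refine Mq_bdd (K := |S.lam' b| * C + |S.sig b| * (C ^ pm N * C)) (meas_of_cont ?_) ?_
  · have h := (S.U_rep hN hb).1
    exact (h.const_mul _).add (((continuous_nl hN).comp_continuousOn h).const_mul _)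
  · refine Eventually.of_forall fun x hx => ?_
    have h1 := S.u_bdd hN hb x hx
    have h2 := nl_le hN h1
    refine (abs_add_le _ _).trans ?_
    rw [abs_mul, abs_mul]
    exact add_le_add (mul_le_mul_of_nonneg_left h1 (abs_nonneg _))
      (mul_le_mul_of_nonneg_left h2 (abs_nonneg _))

lemma f_Mq (hN : 3 ≤ N) (D : Cr N) (e : E N) (i : ℕ) (q a b : ℝ) :
    Mq q (D.Om i) (fun x => a * D.f1 e i x + b * (D.lam2 i * D.f2 e i x)) := by
  obtain ⟨M, hM, h⟩ := f1_bdd D e i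
  refine Mq_bdd (K := |a| * M + |b| * (|D.lam2 i| * M)) (meas_of_cont ?_) ?_
  · exact (((f1_cont D i).mono (Om_sub D i)).const_mul _).add
      ((((f2_cont D i).mono (Om_sub D i)).const_mul _).const_mul _)
  · refine Eventually.of_forall fun x hx => ?_
    refine (abs_add_le _ _).trans ?_
    rw [abs_mul, abs_mul, abs_mul]
    exact add_le_add (mul_le_mul_of_nonneg_left (h x hx).1 (abs_nonneg _))
      (mul_le_mul_of_nonneg_left (mul_le_mul_of_nonneg_left (h x hx).2 (abs_nonneg _))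
        (abs_nonneg _))

/-- the equation with the representative -/
lemma eqn (S : Br D e i C B k I) (hN : 3 ≤ N) {b : ℝ} (hb : b ∈ I) :
    Weak (D.Om i) (S.U b) (fun x => S.lam' b * S.u b x + S.sig b * nl N (S.u b x)) := by
  refine weak_congr (S.sol b hb).eqn ?_
  filter_upwards [(S.U_rep hN hb).2.2] with x hx _
  unfold U at hx
  rw [hx]

lemma eqn_om (S : Br D e i C B k I) (hN : 3 ≤ N) {b : ℝ} (hb : b ∈ I) :
    Weak (D.Om i) (S.om b) (S.G b) := by
  have h1 := F1_spec D hN S.he i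
  have h2 := F2_spec D hN S.he i
  have hq1 : Mq (td N) (D.Om i) (fun x => D.lam1 i * D.f1 e i x) := by
    have := f_Mq hN D e i (td N) (D.lam1 i) 0
    simpa using this
  have hq2 : Mq (td N) (D.Om i) (fun x => D.lam2 i * D.f2 e i x) := by
    have := f_Mq hN D e i (td N) 0 1
    simpa using this
  have h3 := weak_add hN hq1 (hq2.const_mul b) h1.2.2 (weak_smul hN b hq2 h2.2.2)
  have h4 := weak_sub hN (S.rhs_Mq hN hb (td N)) (hq1.add (hq2.const_mul b)) (S.eqn hN hb) h3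
  have h5 : S.U b - (D.F1 e i + b • D.F2 e i) = S.om b := by
    unfold U; abel
  rw [h5] at h4
  exact h4

/-- the sup norm is continuous in the parameter -/
lemma sup_cont (S : Br D e i C B k I) (hN : 3 ≤ N) (hN5 : N ≤ 5) {b : ℝ} (hb : b ∈ I) {ε : ℝ}
    (hε : 0 < ε) : ∀ᶠ b' in 𝓝[I] b, ∀ x ∈ D.Om i, |S.v b' x - S.v b x| ≤ ε := by
  obtain ⟨Cs, hCs, hs⟩ := exists_sup hN hN5 1
  obtain ⟨Ss, hSs, hsob⟩ := exists_sob_q hN 1 (q := 3) (by norm_num) (ts_ge hN hN5)
  obtain ⟨Λ, hΛ, hlip⟩ := nl_diff_le hN hN5 C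
  obtain ⟨M, hM, hf⟩ := f1_bdd D e i
  have hC0 : 0 ≤ C := by
    have h1 : ∃ x, x ∈ D.Om i := by
      obtain ⟨t, ht, ht'⟩ := exists_between (rho_lt D i)
      refine ⟨t • e, ?_, ?_⟩ <;>
      · rw [norm_smul, S.he, mul_one, Real.norm_eq_abs,
          abs_of_pos ((rho_pos D i).trans ht)]
        assumption
    obtain ⟨x, hx⟩ := h1
    exact (abs_nonneg _).trans (S.u_bdd hN hb x hx)
  set V : ℝ := nq 3 (D.Om i) (fun _ => (1 : ℝ)) with hV
  have hV0 : 0 ≤ V := ENNReal.toReal_nonneg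
  set A : ℝ → ℝ := fun b' => |S.lam' b' - S.lam' b| * C + |S.sig b' - S.sig b| * (C ^ pm N * C) +
    |b' - b| * (|D.lam2 i| * M) with hA
  set m : ℝ → ℝ := fun b' => |S.lam' b'| + |S.sig b'| * Λ with hm
  have hA0 : ∀ b', 0 ≤ A b' := fun b' => by positivity
  have hm0 : ∀ b', 0 ≤ m b' := fun b' => by positivity
  have key : ∀ b' ∈ I, ∀ x ∈ D.Om i, |S.v b' x - S.v b x| ≤
      Cs * (A b' * V + m b' * (Ss * ‖S.U b' - S.U b‖)) := by
    intro b' hb'
    have hcont : ContinuousOn (fun x => S.v b' x - S.v b x) (D.Om i) :=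
      (S.rep b' hb').1.sub (S.rep b hb).1
    refine rep_le_of_ae hcont ?_
    have hG : ∀ c ∈ I, ∀ q, Mq q (D.Om i) (S.G c) := fun c hc q =>
      (S.rhs_Mq hN hc q).sub (f_Mq hN D e i q _ _)
    have hw := weak_sub hN (hG b' hb' _) (hG b hb _) (S.eqn_om hN hb') (S.eqn_om hN hb)
    have h1 := hs (D.Om i) (isOpen_ann _) (ann_sub_ball _) _ _ ((hG b' hb' 3).sub (hG b hb 3)) hw
    have hfn := fn_sub hN (mem_univ_of_DD (XS_DD hN (S.sol b' hb').mem))
      (mem_univ_of_DD (XS_DD hN (S.sol b hb).mem))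
    have hUr' := S.U_rep hN hb'
    have hUr := S.U_rep hN hb
    have hUD : S.U b' - S.U b ∈ DD (ann N (D.rho i)) :=
      Submodule.sub_mem _ (XS_DD hN (S.U_mem hN hb')) (XS_DD hN (S.U_mem hN hb))
    have hsb := hsob _ (DD_mono (ann_sub_ball _) hUD)
    have hfU := fn_sub hN (mem_univ_of_DD (XS_DD hN (S.U_mem hN hb')))
      (mem_univ_of_DD (XS_DD hN (S.U_mem hN hb)))
    have hdiff : fn (S.U b' - S.U b) =ᵐ[volume] fun x => S.u b' x - S.u b x := by
      filter_upwards [hfU, hUr'.2.2, hUr.2.2] with x a1 a2 a3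
      rw [a1, a2, a3]
    have hMqd : Mq 3 (D.Om i) (fun x => S.u b' x - S.u b x) := by
      have := (hsb.1.mono_measure (Measure.restrict_mono (subset_univ (D.Om i)) le_rfl))
      exact (memLp_congr_ae (ae_restrict_of_ae hdiff)).1 this
    have hnqd : nq 3 (D.Om i) (fun x => S.u b' x - S.u b x) ≤ Ss * ‖S.U b' - S.U b‖ := by
      refine le_trans ?_ hsb.2
      unfold nq
      rw [← eLpNorm_congr_ae (ae_restrict_of_ae hdiff)]
      exact ENNReal.toReal_mono hsb.1.2.ne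
        (eLpNorm_mono_measure _ (Measure.restrict_mono (subset_univ (D.Om i)) le_rfl))
    have hpt : ∀ x ∈ D.Om i, |S.G b' x - S.G b x| ≤ A b' + m b' * |S.u b' x - S.u b x| := by
      intro x hx
      have e1 : S.G b' x - S.G b x = ((S.lam' b' - S.lam' b) * S.u b x +
          (S.sig b' - S.sig b) * nl N (S.u b x) + -((b' - b) * (D.lam2 i * D.f2 e i x))) +
          (S.lam' b' * (S.u b' x - S.u b x) +
            S.sig b' * (nl N (S.u b' x) - nl N (S.u b x))) := by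
        unfold G; ring
      rw [e1]
      refine (abs_add_le _ _).trans (add_le_add ?_ ?_)
      · refine (abs_add_le _ _).trans (add_le_add ((abs_add_le _ _).trans (add_le_add ?_ ?_)) ?_)
        · rw [abs_mul]
          exact mul_le_mul_of_nonneg_left (S.u_bdd hN hb x hx) (abs_nonneg _)
        · rw [abs_mul]
          exact mul_le_mul_of_nonneg_left (nl_le hN (S.u_bdd hN hb x hx)) (abs_nonneg _)
        · rw [abs_neg, abs_mul, abs_mul]
          exact mul_le_mul_of_nonneg_left (mul_le_mul_of_nonneg_left (hf x hx).2 (abs_nonneg _))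
            (abs_nonneg _)
      · refine (abs_add_le _ _).trans ?_
        rw [abs_mul, abs_mul, hm, add_mul, mul_assoc]
        exact add_le_add le_rfl (mul_le_mul_of_nonneg_left
          (hlip _ _ (S.u_bdd hN hb' x hx) (S.u_bdd hN hb x hx)) (abs_nonneg _))
    have hnq := nq_le_of_le (hA0 b') (hm0 b') hMqd hpt
    have hfin : nq 3 (D.Om i) (fun x => S.G b' x - S.G b x) ≤
        A b' * V + m b' * (Ss * ‖S.U b' - S.U b‖) :=
      hnq.trans (add_le_add le_rfl (mul_le_mul_of_nonneg_left hnqd (hm0 b')))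
    filter_upwards [h1, hfn, (S.rep b' hb').2.2, (S.rep b hb).2.2] with x a1 a2 a3 a4 _
    rw [a2, a3, a4] at a1
    exact a1.trans (mul_le_mul_of_nonneg_left hfin hCs.le)
  have hlim : Tendsto (fun b' => Cs * (A b' * V + m b' * (Ss * ‖S.U b' - S.U b‖))) (𝓝[I] b)
      (𝓝 (Cs * (0 * V + m b * (Ss * 0)))) := by
    have t1 : Tendsto S.lam' (𝓝[I] b) (𝓝 (S.lam' b)) := S.c_lam b hb
    have t2 : Tendsto S.sig (𝓝[I] b) (𝓝 (S.sig b)) := S.c_sig b hb
    have t3 : Tendsto S.U (𝓝[I] b) (𝓝 (S.U b)) := S.U_cont b hb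
    have t4 : Tendsto (fun b' : ℝ => b') (𝓝[I] b) (𝓝 b) := tendsto_id.mono_left nhdsWithin_le_nhds
    have z1 : Tendsto (fun b' => |S.lam' b' - S.lam' b|) (𝓝[I] b) (𝓝 0) := by
      simpa using (t1.sub_const (S.lam' b)).abs
    have z2 : Tendsto (fun b' => |S.sig b' - S.sig b|) (𝓝[I] b) (𝓝 0) := by
      simpa using (t2.sub_const (S.sig b)).abs
    have z3 : Tendsto (fun b' => ‖S.U b' - S.U b‖) (𝓝[I] b) (𝓝 0) := by
      simpa using (t3.sub_const (S.U b)).norm
    have z4 : Tendsto (fun b' : ℝ => |b' - b|) (𝓝[I] b) (𝓝 0) := by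
      simpa using (t4.sub_const b).abs
    have zA : Tendsto A (𝓝[I] b) (𝓝 0) := by
      have := ((z1.mul_const C).add (z2.mul_const (C ^ pm N * C))).add
        (z4.mul_const (|D.lam2 i| * M))
      simpa using this
    have zm : Tendsto m (𝓝[I] b) (𝓝 (m b)) := t1.abs.add (t2.abs.mul_const Λ)
    exact ((zA.mul_const V).add (zm.mul (z3.const_mul Ss))).const_mul Cs
  rw [show Cs * (0 * V + m b * (Ss * 0)) = 0 by ring] at hlim
  filter_upwards [hlim.eventually (gt_mem_nhds hε), self_mem_nhdsWithin] with b' h1 h2 x hx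
  exact (key b' h2 x hx).trans h1.le

end Br
end FF
end Pool.Agent.helper13.BN
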