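import Pool.Agent.helper67.BN.FF2
import Pool.Agent.helper73.BN.AADef

/-!
# MP_94a57f_an, module C11 (3): the profile on the axis
-/

set_option autoImplicit false
open MeasureTheory Filter Topology Set Metric
open scoped ContDiff Gradient RealInnerProductSpace ENNReal

noncomputable section
namespace Pool.Agent.helper13.BN
namespace FF
variable {N : ℕ}

lemma int_shrink {ρ ρs : ℝ} (h : ρ ≤ ρs) (h1 : ρs ≤ 1) {f : ℝ → ℝ}
    (hf : ∀ r, r ∉ Ioo ρs 1 → f r = 0) : ∫ r in ρ..1, f r = ∫ r in ρs..1, f r := by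
  rw [intervalIntegral.integral_of_le (h.trans h1), intervalIntegral.integral_of_le h1]
  refine setIntegral_eq_of_subset_of_forall_diff_eq_zero measurableSet_Ioc
    (Ioc_subset_Ioc_left h) fun r hr => hf r fun hr' => hr.2 ⟨hr'.1, hr'.2.le⟩

lemma deriv2_zero {ψ : ℝ → ℝ} {r : ℝ} (h : r ∉ tsupport ψ) :
    deriv (fun s => s ^ (N - 1) * deriv ψ s) r = 0 := by
  have h1 : ψ =ᶠ[𝓝 r] fun _ => 0 := notMem_tsupport_iff_eventuallyEq.1 h
  have h2 : deriv ψ =ᶠ[𝓝 r] deriv fun _ => (0 : ℝ) := h1.deriv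
  have h3 : (fun s => s ^ (N - 1) * deriv ψ s) =ᶠ[𝓝 r] fun _ => 0 := by
    filter_upwards [h2] with s hs
    rw [hs, deriv_const, mul_zero]
  rw [h3.deriv_eq, deriv_const]

namespace Br
variable {D : Cr N} {e : E N} {i : ℕ} {C B k : ℝ} {I : Set ℝ}

lemma axis_mem (S : Br D e i C B k I) {r : ℝ} (h : D.rho i < r) (h1 : r < 1) :
    r • e ∈ D.Om i := by
  have h0 : 0 < r := (rho_pos D i).trans h
  constructor <;>
  · rw [norm_smul, S.he, mul_one, Real.norm_eq_abs, abs_of_pos h0]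
    assumption

lemma norm_axis (S : Br D e i C B k I) {r : ℝ} (h : 0 < r) : ‖r • e‖ = r := by
  rw [norm_smul, S.he, mul_one, Real.norm_eq_abs, abs_of_pos h]

lemma profile (hN : 3 ≤ N) {Cc : ℝ}
    (hcap : ∀ ρ : ℝ, 0 < ρ → ρ < 1 →
      ∀ (e : E N) (w : LV N) (v g : E N → ℝ) (K : ℝ), ‖e‖ = 1 → w ∈ XS e ρ → 0 ≤ K →
      IsRep (ann N ρ) w v → Weak (ann N ρ) w g → ContinuousOn g (ann N ρ) →
      (∀ x ∈ ann N ρ, |g x| ≤ K * (1 - ‖x‖)) → (∀ x ∈ ann N ρ, |v x| ≤ K * (1 - ‖x‖)) →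
      (∀ (R : E N ≃ₗᵢ[ℝ] E N) (k : ℝ), (∀ x, ‖R x - x‖ ≤ k * ‖x‖) → ∀ x ∈ ann N ρ,
          |v (R x) + v (R.symm x) - 2 * v x| ≤ K * k ^ 2 * (1 - ‖x‖)) →
      ∀ ψ : ℝ → ℝ, ContDiff ℝ ∞ ψ → HasCompactSupport ψ → tsupport ψ ⊆ Ioo ρ 1 →
        |∫ r in ρ..1, v (r • e) * deriv (fun s => s ^ (N - 1) * deriv ψ s) r|
          ≤ Cc * K * ∫ r in ρ..1, (1 - r) * |ψ r|)
    (hCc : 0 < Cc) {ρs C6 : ℝ} (hρs : ρs < 1)
    (hconv : ∀ (M : ℝ → ℝ) (B K : ℝ), ContinuousOn M (Ioo ρs 1) →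
      (∀ r ∈ Ioo ρs 1, |M r| ≤ B * (1 - r)) → 0 ≤ K →
      (∀ ψ : ℝ → ℝ, ContDiff ℝ ∞ ψ → HasCompactSupport ψ → tsupport ψ ⊆ Ioo ρs 1 →
        |∫ r in ρs..1, M r * deriv (fun s => s ^ (N - 1) * deriv ψ s) r|
          ≤ K * ∫ r in ρs..1, (1 - r) * |ψ r|) →
      ∃ ε : ℝ, |ε| ≤ B ∧ ∀ r ∈ Ioo ρs 1, |M r - ε * AA N r| ≤ C6 * K * (1 - r) ^ 3)
    (S : Br D e i C B k I) (hB : 0 ≤ B) (hρ : D.rho i ≤ ρs) {b : ℝ} (hb : b ∈ I) :
    ∃ ε : ℝ, |ε| ≤ B * S.sig b ∧ ∀ r ∈ Ioo ρs 1,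
      |S.v b (r • e) - ε * AA N r| ≤ C6 * (Cc * (B * S.sig b)) * (1 - r) ^ 3 := by
  have hK : 0 ≤ B * S.sig b := mul_nonneg hB (S.sol b hb).sig_pos.le
  refine hconv (fun r => S.v b (r • e)) (B * S.sig b) (Cc * (B * S.sig b)) ?_ ?_
    (mul_nonneg hCc.le hK) ?_
  · refine (S.rep b hb).1.comp ?_ fun r hr => S.axis_mem (hρ.trans_lt hr.1) hr.2
    exact (continuous_id.smul continuous_const).continuousOn
  · intro r hr
    have h0 : 0 < r := (rho_pos D i).trans (hρ.trans_lt hr.1)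
    have := S.v_le b hb (r • e) (S.axis_mem (hρ.trans_lt hr.1) hr.2)
    rwa [S.norm_axis h0] at this
  · intro ψ h1 h2 h3
    have h4 := hcap (D.rho i) (rho_pos D i) (rho_lt D i) e (S.om b) (S.v b) (S.g b)
      (B * S.sig b) S.he (S.sol b hb).mem hK (S.rep b hb) (S.wk b hb) (S.gcont b hb)
      (S.g_le b hb) (S.v_le b hb) (S.tan b hb) ψ h1 h2 (h3.trans (Ioo_subset_Ioo_left hρ))
    rw [int_shrink hρ hρs.le, int_shrink hρ hρs.le (f := fun r => (1 - r) * |ψ r|)] at h4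
    · exact h4
    · intro r hr
      have : ψ r = 0 := by
        by_contra h0
        exact hr (h3 (subset_tsupport _ h0))
      rw [this, abs_zero, mul_zero]
    · intro r hr
      rw [deriv2_zero (fun h => hr (h3 h)), mul_zero]

lemma eps_cont (hN : 3 ≤ N) (hN5 : N ≤ 5) (S : Br D e i C B k I) {ep : ℝ → ℝ} {K3 C4 d1 : ℝ}
    (hd1 : 0 < d1) (hd1' : D.rho i < 1 - d1) (hK3 : 0 < K3) (hC4 : 0 < C4)
    (h : ∀ b ∈ I, ∀ d ∈ Ioo 0 d1, |S.v b ((1 - d) • e) - ep b * AA N (1 - d)| ≤ K3 * d ^ 3)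
    (hAA : ∀ d ∈ Ioo 0 d1, |AA N (1 - d) - d| ≤ C4 * d ^ 2) : ContinuousOn ep I := by
  intro b hb
  rw [ContinuousWithinAt, Metric.tendsto_nhds]
  intro δ hδ
  -- choice of `d`
  obtain ⟨d, hd, hdd1, hd2, hd3⟩ : ∃ d : ℝ, 0 < d ∧ d < d1 ∧ C4 * d ≤ 1 / 2 ∧
      2 * K3 * d ^ 2 ≤ δ / 8 := by
    have e1 : ∀ᶠ d : ℝ in 𝓝[>] 0, d < d1 := by
      filter_upwards [Ioo_mem_nhdsGT hd1] with d hd using hd.2
    have e2 : ∀ᶠ d : ℝ in 𝓝[>] 0, C4 * d < 1 / 2 := by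
      have : Tendsto (fun d : ℝ => C4 * d) (𝓝[>] 0) (𝓝 (C4 * 0)) :=
        ((continuous_const.mul continuous_id).tendsto 0).mono_left nhdsWithin_le_nhds
      rw [mul_zero] at this
      exact this.eventually (gt_mem_nhds (by norm_num))
    have e3 : ∀ᶠ d : ℝ in 𝓝[>] 0, 2 * K3 * d ^ 2 < δ / 8 := by
      have : Tendsto (fun d : ℝ => 2 * K3 * d ^ 2) (𝓝[>] 0) (𝓝 (2 * K3 * 0 ^ 2)) :=
        ((continuous_const.mul (continuous_id.pow 2)).tendsto 0).mono_left nhdsWithin_le_nhds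
      rw [zero_pow two_ne_zero, mul_zero] at this
      exact this.eventually (gt_mem_nhds (by positivity))
    obtain ⟨d, h1, h2, h3, h4⟩ := (e1.and (e2.and (e3.and self_mem_nhdsWithin))).exists
    exact ⟨d, h4, h1, h2.le, h3.le⟩
  have hA := hAA d ⟨hd, hdd1⟩
  have hA2 : d / 2 ≤ AA N (1 - d) := by
    rw [abs_le] at hA
    nlinarith [hA.1]
  have hsup := S.sup_cont hN hN5 hb (ε := δ * d / 8) (by positivity)
  filter_upwards [hsup, self_mem_nhdsWithin] with b' h1 h2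
  have hx : (1 - d) • e ∈ D.Om i := S.axis_mem (by linarith) (by linarith)
  have h3 := h1 _ hx
  have h4 := h b' h2 d ⟨hd, hdd1⟩
  have h5 := h b hb d ⟨hd, hdd1⟩
  rw [Real.dist_eq]
  have h6 : |ep b' - ep b| * AA N (1 - d) ≤ δ * d / 8 + 2 * (K3 * d ^ 3) := by
    have hpos : 0 ≤ AA N (1 - d) := by linarith
    calc |ep b' - ep b| * AA N (1 - d) = |(ep b' - ep b) * AA N (1 - d)| := by
          rw [abs_mul, abs_of_nonneg hpos]
      _ = |(S.v b' ((1 - d) • e) - S.v b ((1 - d) • e)) -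
            (S.v b' ((1 - d) • e) - ep b' * AA N (1 - d)) +
            (S.v b ((1 - d) • e) - ep b * AA N (1 - d))| := by congr 1; ring
      _ ≤ |S.v b' ((1 - d) • e) - S.v b ((1 - d) • e)| +
            |S.v b' ((1 - d) • e) - ep b' * AA N (1 - d)| +
            |S.v b ((1 - d) • e) - ep b * AA N (1 - d)| := by
          refine (abs_add_le _ _).trans (add_le_add (abs_sub _ _) le_rfl)
      _ ≤ δ * d / 8 + 2 * (K3 * d ^ 3) := by linarith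
  have h7 : |ep b' - ep b| * (d / 2) ≤ |ep b' - ep b| * AA N (1 - d) :=
    mul_le_mul_of_nonneg_left hA2 (abs_nonneg _)
  have h8 : 2 * (K3 * d ^ 3) ≤ δ * d / 8 := by nlinarith
  have h9 : |ep b' - ep b| * (d / 2) ≤ δ * d / 4 := by linarith
  have h10 : |ep b' - ep b| ≤ δ / 2 := by
    by_contra hcon
    push Not at hcon
    nlinarith
  linarith

end Br
end FF
end Pool.Agent.helper13.BN
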