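import Pool.Agent.helper67.BN.FF3

/-!
# MP_94a57f_an, module C11 (4): the solutions change sign
-/

set_option autoImplicit false
open MeasureTheory Filter Topology Set Metric
open scoped ContDiff Gradient RealInnerProductSpace ENNReal

noncomputable section
namespace Pool.Agent.helper13.BN
namespace FF
variable {N : ℕ}

lemma qf_cont (ν lam : ℝ) : Continuous (qf ν lam) := by
  unfold qf; fun_prop

/-- a zero of `y` with `y' = 0` is impossible (for `z > 0`) if `y` has no other zero nearby -/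
lemma deriv_ne_zero {ν lam z : ℝ} (hz : 0 < z) (h0 : yf ν lam z = 0)
    (hne : yf ν lam (z / 2) ≠ 0) : deriv (yf ν lam) z ≠ 0 := by
  intro h1
  have hs := yf_spec ν lam
  set Y : ℝ → ℝ := fun t => yf ν lam (z - t) with hY
  have hd : ∀ t, HasDerivAt Y (-deriv (yf ν lam) (z - t)) t := by
    intro t
    have h2 : HasDerivAt (fun t : ℝ => z - t) (-1) t := by
      simpa using (hasDerivAt_id t).const_sub z
    have h3 : HasDerivAt (yf ν lam) (deriv (yf ν lam) (z - t)) (z - t) :=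
      (hs.2.2.1 (z - t)).hasDerivAt
    have h4 : HasDerivAt (fun t => yf ν lam (z - t)) (deriv (yf ν lam) (z - t) * (-1)) t :=
      h3.comp t h2
    rw [mul_neg_one] at h4
    exact h4
  have hdY : deriv Y = fun t => -deriv (yf ν lam) (z - t) := funext fun t => (hd t).deriv
  have hd2 : ∀ t, HasDerivAt (deriv Y) (qf ν lam (z - t) * Y t + 0) t := by
    intro t
    rw [hdY]
    have h2 : HasDerivAt (fun t : ℝ => z - t) (-1) t := by
      simpa using (hasDerivAt_id t).const_sub z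
    have h3 : HasDerivAt (fun t => deriv (yf ν lam) (z - t))
        (qf ν lam (z - t) * yf ν lam (z - t) * (-1)) t := (hs.2.2.2 (z - t)).comp t h2
    refine h3.neg.congr_deriv ?_
    rw [hY]
    ring
  have hc : Continuous fun t => qf ν lam (z - t) :=
    (qf_cont ν lam).comp (continuous_const.sub continuous_id)
  obtain ⟨M, hM⟩ := (isCompact_Icc (a := (0 : ℝ)) (b := z)).exists_bound_of_continuousOn
    hc.continuousOn
  obtain ⟨C, hC, hb⟩ := exists_ode_bound M z
  have := hb (fun t => qf ν lam (z - t)) (fun _ => 0) Y 0 0 0 hc continuous_const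
    (fun t ht => by rw [← Real.norm_eq_abs]; exact hM t ht) (fun t _ => by simp)
    (by rw [hY]; simp [h0]) (by rw [hdY]; simp [h1]) (fun t => (hd t).differentiableAt) hd2
    (z / 2) ⟨by linarith, by linarith⟩
  have h5 := this.1
  rw [abs_zero, add_zero, add_zero, mul_zero] at h5
  apply hne
  have h6 : Y (z / 2) = 0 := abs_eq_zero.1 (le_antisymm h5 (abs_nonneg _))
  rw [hY] at h6
  simp only at h6
  rwa [show z - z / 2 = z / 2 by ring] at h6

lemma node_signs (D : Cr N) : (∃ t ∈ Ioo 0 D.L, 0 < yf (cc N) D.lam t) ∧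
    (∃ t ∈ Ioo 0 D.L, yf (cc N) D.lam t < 0) := by
  obtain ⟨z, hz, hzz⟩ := D.node
  have h0 : yf (cc N) D.lam z = 0 := (hzz z hz).2 rfl
  have hne : yf (cc N) D.lam (z / 2) ≠ 0 := by
    intro h
    have := (hzz (z / 2) ⟨by linarith [hz.1], by linarith [hz.1, hz.2]⟩).1 h
    linarith [hz.1]
  have hd := deriv_ne_zero hz.1 h0 hne
  have hnh : Ioo 0 D.L ∈ 𝓝 z := Ioo_mem_nhds hz.1 hz.2
  constructor
  · by_contra hcon
    push Not at hcon
    refine hd (IsLocalMax.deriv_eq_zero ?_)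
    filter_upwards [hnh] with t ht
    rw [h0]; exact hcon t ht
  · by_contra hcon
    push Not at hcon
    refine hd (IsLocalMin.deriv_eq_zero ?_)
    filter_upwards [hnh] with t ht
    rw [h0]; exact hcon t ht

lemma Pz_zero_of_odd (l : ℕ) (hl : Odd l) : Pz N l 0 = 0 := by
  have h := Pz_neg N l 0
  rw [neg_zero, hl.neg_one_pow] at h
  linarith

/-- unit vector orthogonal to `e` -/
lemma exists_orth (hN : 3 ≤ N) (e : E N) : ∃ n : E N, ‖n‖ = 1 ∧ ⟪n, e⟫ = 0 := by
  have h1 : (Submodule.span ℝ {e})ᗮ ≠ ⊥ := by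
    intro h
    have h2 := Submodule.finrank_add_finrank_orthogonal (Submodule.span ℝ {e})
    rw [h, finrank_bot, add_zero, finrank_euclideanSpace, Fintype.card_fin] at h2
    have h3 := finrank_span_le_card (R := ℝ) ({e} : Set (E N))
    rw [Set.toFinset_singleton, Finset.card_singleton] at h3
    omega
  obtain ⟨n, hn, hn0⟩ := Submodule.exists_mem_ne_zero_of_ne_bot h1
  have h2 : ⟪e, n⟫ = 0 := (Submodule.mem_orthogonal_singleton_iff_inner_right).1 hn
  refine ⟨‖n‖⁻¹ • n, ?_, ?_⟩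
  · rw [norm_smul, norm_inv, norm_norm, inv_mul_cancel₀ (norm_ne_zero_iff.2 hn0)]
  · rw [inner_smul_left, real_inner_comm, h2, mul_zero]

/-- value of the eigenfunctions at a point orthogonal to the axis -/
lemma f1_orth (D : Cr N) (e : E N) (i : ℕ) {n : E N} (hn : ‖n‖ = 1) (t : ℝ) :
    D.f1 e i (Real.exp (-t) • n) = Real.exp (cc N * t) * yf (cc N) (D.lam1 i) t := by
  unfold Cr.f1 cyl
  rw [norm_smul, hn, mul_one, Real.norm_eq_abs, abs_of_pos (Real.exp_pos _), Real.log_exp, neg_neg,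
    Pz_zero, mul_one, ← Real.exp_mul]
  congr 2
  ring

lemma f2_orth (D : Cr N) {e : E N} (i : ℕ) {n : E N} (hne : ⟪n, e⟫ = 0) (t : ℝ) :
    D.f2 e i (Real.exp (-t) • n) = 0 := by
  unfold Cr.f2 cyl
  rw [inner_smul_left, hne, mul_zero, zero_div, Pz_zero_of_odd D.l D.hl, mul_zero]

lemma pos_ae {ρ : ℝ} {w : LV N} {v : E N → ℝ} (h : IsRep (ann N ρ) w v) {x : E N}
    (hx : x ∈ ann N ρ) (hv : 0 < v x) : ¬ ∀ᵐ x, fn w x ≤ 0 := by
  intro hcon
  have h1 : ∀ᵐ x, x ∈ ann N ρ → |max (v x) 0| ≤ 0 := by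
    filter_upwards [hcon, h.2.2] with y a1 a2 _
    rw [a2] at a1
    rw [max_eq_right a1, abs_zero]
  have h2 := rep_le_of_ae (v := fun y => max (v y) 0)
    (h.1.sup continuousOn_const) h1 x hx
  rw [max_eq_left hv.le, abs_of_pos hv] at h2
  linarith

lemma neg_ae {ρ : ℝ} {w : LV N} {v : E N → ℝ} (h : IsRep (ann N ρ) w v) {x : E N}
    (hx : x ∈ ann N ρ) (hv : v x < 0) : ¬ ∀ᵐ x, 0 ≤ fn w x := by
  intro hcon
  have h1 : ∀ᵐ x, x ∈ ann N ρ → |min (v x) 0| ≤ 0 := by
    filter_upwards [hcon, h.2.2] with y a1 a2 _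
    rw [a2] at a1
    rw [min_eq_right a1, abs_zero]
  have h2 := rep_le_of_ae (v := fun y => min (v y) 0)
    (h.1.inf continuousOn_const) h1 x hx
  rw [min_eq_left hv.le, abs_of_neg hv] at h2
  linarith

lemma lam_tendsto (ν : ℝ) (D : Cr N) (t : ℝ) :
    Tendsto (fun i => yf ν (D.lam1 i) t) atTop (𝓝 (yf ν D.lam t)) := by
  have hc := (yf_continuous ν).1
  have h1 : Tendsto (fun i => (D.lam1 i, t)) atTop (𝓝 (D.lam, t)) :=
    D.t1.prodMk_nhds tendsto_const_nhds
  have h2 := (hc.tendsto (D.lam, t)).comp h1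
  simpa only [Function.comp_def] using h2

/-- the solutions take both signs -/
lemma both_signs (hN : 3 ≤ N) (D : Cr N) {e : E N} (B : ℝ) : ∃ k : ℝ, 0 < k ∧ ∀ᶠ i in atTop,
    ∀ (C : ℝ) (I : Set ℝ) (k' : ℝ) (S : Br D e i C B k' I), k' ≤ k → ∀ b ∈ I,
      (∃ x ∈ D.Om i, 0 < S.u b x) ∧ (∃ x ∈ D.Om i, S.u b x < 0) := by
  obtain ⟨⟨tp, htp, hp⟩, ⟨tm, htm, hm⟩⟩ := node_signs D
  obtain ⟨n, hn, hne⟩ := exists_orth hN e
  have lp := lam_tendsto (cc N) D tp
  have lm := lam_tendsto (cc N) D tm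
  obtain ⟨yp, hyp⟩ : ∃ yp, yp = yf (cc N) D.lam tp := ⟨_, rfl⟩
  obtain ⟨ym, hym⟩ : ∃ ym, ym = yf (cc N) D.lam tm := ⟨_, rfl⟩
  rw [← hyp] at lp hp
  rw [← hym] at lm hm
  have hcc : 0 < cc N := by
    have : (3 : ℝ) ≤ N := by exact_mod_cast hN
    unfold cc; linarith
  refine ⟨min yp (-ym) / 4 / (|B| + 1), by
    have := lt_min hp (neg_pos.2 hm); positivity, ?_⟩
  filter_upwards [lp.eventually (lt_mem_nhds (by linarith : yp / 2 < yp)),
    lm.eventually (gt_mem_nhds (by linarith : ym < ym / 2)),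
    D.tL.eventually (lt_mem_nhds htp.2), D.tL.eventually (lt_mem_nhds htm.2)] with i a1 a2 a3 a4
  intro C I k' S hk' b hb
  have hmin := lt_min hp (neg_pos.2 hm)
  have hsig := S.sig_le b hb
  have hsp := (S.sol b hb).sig_pos
  have hk'' : (|B| + 1) * k' ≤ min yp (-ym) / 4 := by
    rwa [le_div_iff₀ (by positivity), mul_comm] at hk'
  have hvb : ∀ x ∈ D.Om i, |S.v b x| ≤ min yp (-ym) / 4 := by
    intro x hx
    have h1 := S.v_le b hb x hx
    have h2 : 0 ≤ 1 - ‖x‖ := by linarith [hx.2]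
    have h3 : 1 - ‖x‖ ≤ 1 := by linarith [norm_nonneg x]
    have h4 : B * S.sig b ≤ (|B| + 1) * k' := by
      have h5 : B ≤ |B| + 1 := by linarith [le_abs_self B]
      calc B * S.sig b ≤ (|B| + 1) * S.sig b := mul_le_mul_of_nonneg_right h5 hsp.le
        _ ≤ (|B| + 1) * k' := mul_le_mul_of_nonneg_left hsig (by positivity)
    have h6 : 0 ≤ (|B| + 1) * k' := by
      have : 0 < k' := hsp.trans_le hsig
      positivity
    calc |S.v b x| ≤ B * S.sig b * (1 - ‖x‖) := h1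
      _ ≤ (|B| + 1) * k' * (1 - ‖x‖) := mul_le_mul_of_nonneg_right h4 h2
      _ ≤ (|B| + 1) * k' := mul_le_of_le_one_right h6 h3
      _ ≤ _ := hk''
  have hmem : ∀ t ∈ Ioo 0 D.L, t < D.Ls i → Real.exp (-t) • n ∈ D.Om i := by
    intro t ht ht'
    constructor <;>
    · rw [norm_smul, hn, mul_one, Real.norm_eq_abs, abs_of_pos (Real.exp_pos _)]
      first
        | exact Real.exp_lt_exp.2 (by linarith)
        | (rw [Real.exp_lt_one_iff]; linarith [ht.1])
  have hexp : ∀ t, 0 < t → 1 ≤ Real.exp (cc N * t) := fun t ht =>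
    Real.one_le_exp (by positivity)
  constructor
  · refine ⟨_, hmem tp htp a3, ?_⟩
    rw [S.u_of_mem b (hmem tp htp a3), f1_orth D e i hn, f2_orth D i hne, mul_zero, add_zero]
    have h1 := hvb _ (hmem tp htp a3)
    rw [abs_le] at h1
    have h2 : yp / 2 ≤ Real.exp (cc N * tp) * yf (cc N) (D.lam1 i) tp := by
      have := hexp tp htp.1
      nlinarith
    have h3 : min yp (-ym) ≤ yp := min_le_left _ _
    linarith [h1.1]
  · refine ⟨_, hmem tm htm a4, ?_⟩
    rw [S.u_of_mem b (hmem tm htm a4), f1_orth D e i hn, f2_orth D i hne, mul_zero, add_zero]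
    have h1 := hvb _ (hmem tm htm a4)
    rw [abs_le] at h1
    have h2 : Real.exp (cc N * tm) * yf (cc N) (D.lam1 i) tm ≤ ym / 2 := by
      have := hexp tm htm.1
      nlinarith
    have h3 : min yp (-ym) ≤ -ym := min_le_right _ _
    linarith [h1.2]

end FF
end Pool.Agent.helper13.BN
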