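import Pool.Agent.helper67.BN.FF4
import Pool.Agent.helper69.BN.HilSA
import Pool.Agent.helper3.BN.Kop

/-!
# MP_94a57f_an, module C11 (5): scaling; the parameter is not locally constant
-/

set_option autoImplicit false
open MeasureTheory Filter Topology Set Metric
open scoped ContDiff Gradient RealInnerProductSpace ENNReal

noncomputable section
namespace Pool.Agent.helper13.BN
namespace FF
variable {N : ℕ}

instance complete_XS (e : E N) (ρ : ℝ) : CompleteSpace (XS e ρ) :=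
  (Submodule.isClosed_topologicalClosure _).completeSpace_coe

lemma nq_mono {q ρ : ℝ} {f h : E N → ℝ} (hh : Mq q (ann N ρ) h)
    (hb : ∀ᵐ x, x ∈ ann N ρ → |f x| ≤ |h x|) : nq q (ann N ρ) f ≤ nq q (ann N ρ) h := by
  unfold nq
  refine ENNReal.toReal_mono hh.2.ne (eLpNorm_mono_ae ?_)
  rw [ae_restrict_iff' (measurableSet_ann ρ)]
  exact hb

lemma nq_const_mul {q ρ c : ℝ} (hc : 0 ≤ c) (h : E N → ℝ) :
    nq q (ann N ρ) (fun x => c * h x) = c * nq q (ann N ρ) h := by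
  unfold nq
  have := eLpNorm_const_smul c h (ENNReal.ofReal q) (volume.restrict (ann N ρ))
  rw [Real.enorm_of_nonneg hc] at this
  change (eLpNorm (c • h) _ _).toReal = _
  rw [this, ENNReal.toReal_mul, ENNReal.toReal_ofReal hc]

lemma nq_restrict_le {q ρ : ℝ} {h : E N → ℝ} (hh : Mq q univ h) :
    nq q (ann N ρ) h ≤ nq q univ h := by
  unfold nq
  exact ENNReal.toReal_mono hh.2.ne
    (eLpNorm_mono_measure _ (Measure.restrict_mono (subset_univ _) le_rfl))

lemma Mq_restrict {q ρ : ℝ} {h : E N → ℝ} (hh : Mq q univ h) : Mq q (ann N ρ) h :=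
  hh.mono_measure (Measure.restrict_mono (subset_univ _) le_rfl)

lemma axial_ind {e : E N} {ρ : ℝ} {h : E N → ℝ} (hA : Axial e h) {F : ℝ → ℝ}
    (hF : Measurable F) : Axial e ((ann N ρ).indicator (fun x => F (h x))) := by
  obtain ⟨k, hk, hae⟩ := hA
  refine ⟨fun p => if ρ < p.1 ∧ p.1 < 1 then F (k p) else 0, ?_, ?_⟩
  · refine Measurable.ite ?_ (hF.comp hk) measurable_const
    exact (measurableSet_lt measurable_const measurable_fst).inter
      (measurableSet_lt measurable_fst measurable_const)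
  · filter_upwards [hae] with x hx
    by_cases h1 : x ∈ ann N ρ
    · have h2 : ρ < ‖x‖ ∧ ‖x‖ < 1 := h1
      rw [indicator_of_mem h1, if_pos h2, hx]
    · have h2 : ¬ (ρ < ‖x‖ ∧ ‖x‖ < 1) := h1
      rw [indicator_of_notMem h1, if_neg h2]

namespace Br
variable {D : Cr N} {e : E N} {i : ℕ} {C B k : ℝ} {I : Set ℝ}

/-- scaling factor -/
def sc (S : Br D e i C B k I) (b : ℝ) : ℝ := S.sig b ^ (1 / pm N)

/-- the scaled solution -/
def vv (S : Br D e i C B k I) (b : ℝ) : LV N := S.sc b • S.U b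

lemma sc_pos (S : Br D e i C B k I) {b : ℝ} (hb : b ∈ I) : 0 < S.sc b :=
  Real.rpow_pos_of_pos (S.sol b hb).sig_pos _

lemma sc_pm (S : Br D e i C B k I) (hN : 3 ≤ N) {b : ℝ} (hb : b ∈ I) :
    S.sc b ^ pm N = S.sig b := rpow_inv_pm hN (S.sol b hb).sig_pos

lemma sc_le (S : Br D e i C B k I) (hN : 3 ≤ N) {b : ℝ} (hb : b ∈ I) :
    S.sc b ≤ k ^ (1 / pm N) :=
  Real.rpow_le_rpow (S.sol b hb).sig_pos.le (S.sig_le b hb) (by have := pm_pos hN; positivity)

lemma sc_cont (S : Br D e i C B k I) : ContinuousOn S.sc I :=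
  S.c_sig.rpow_const fun b hb => Or.inl (S.sol b hb).sig_pos.ne'

lemma vv_cont (S : Br D e i C B k I) : ContinuousOn S.vv I := S.sc_cont.smul S.U_cont

lemma vv_mem (S : Br D e i C B k I) (hN : 3 ≤ N) {b : ℝ} (hb : b ∈ I) :
    S.vv b ∈ XS e (D.rho i) := (XS e (D.rho i)).smul_mem _ (S.U_mem hN hb)

lemma vv_rep (S : Br D e i C B k I) (hN : 3 ≤ N) {b : ℝ} (hb : b ∈ I) :
    IsRep (D.Om i) (S.vv b) (fun x => S.sc b * S.u b x) := by
  have h := S.U_rep hN hb
  refine ⟨h.1.const_mul _, fun x hx => by simp only; rw [h.2.1 x hx, mul_zero], ?_⟩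
  have h1 := fn_smul hN (S.sc b) (mem_univ_of_DD (XS_DD hN (S.U_mem hN hb)))
  unfold vv
  filter_upwards [h1, h.2.2] with x a1 a2
  rw [a1, a2]

/-- right-hand side of the scaled equation -/
def rhs (S : Br D e i C B k I) (b : ℝ) (x : E N) : ℝ :=
  S.lam' b * (S.sc b * S.u b x) + nl N (S.sc b * S.u b x)

lemma rhs_cont (S : Br D e i C B k I) (hN : 3 ≤ N) {b : ℝ} (hb : b ∈ I) :
    ContinuousOn (S.rhs b) (D.Om i) := by
  have h := (S.vv_rep hN hb).1
  exact (h.const_mul _).add ((continuous_nl hN).comp_continuousOn h)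

lemma vv_bdd (S : Br D e i C B k I) (hN : 3 ≤ N) {b : ℝ} (hb : b ∈ I) :
    ∀ x ∈ D.Om i, |S.sc b * S.u b x| ≤ k ^ (1 / pm N) * C := by
  intro x hx
  have h1 := S.u_bdd hN hb x hx
  rw [abs_mul, abs_of_pos (S.sc_pos hb)]
  exact mul_le_mul (S.sc_le hN hb) h1 (abs_nonneg _) ((S.sc_pos hb).le.trans (S.sc_le hN hb))

lemma rhs_bdd (S : Br D e i C B k I) (hN : 3 ≤ N) {b : ℝ} (hb : b ∈ I) :
    ∀ x ∈ D.Om i, |S.rhs b x| ≤ |S.lam' b| * (k ^ (1 / pm N) * C) +
      (k ^ (1 / pm N) * C) ^ pm N * (k ^ (1 / pm N) * C) := by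
  intro x hx
  have h1 := S.vv_bdd hN hb x hx
  refine (abs_add_le _ _).trans (add_le_add ?_ (nl_le hN h1))
  rw [abs_mul]
  exact mul_le_mul_of_nonneg_left h1 (abs_nonneg _)

lemma rhs_Mq' (S : Br D e i C B k I) (hN : 3 ≤ N) {b : ℝ} (hb : b ∈ I) (q : ℝ) :
    Mq q (D.Om i) (S.rhs b) :=
  Mq_bdd (meas_of_cont (S.rhs_cont hN hb)) (Eventually.of_forall (S.rhs_bdd hN hb))

lemma vv_weak (S : Br D e i C B k I) (hN : 3 ≤ N) {b : ℝ} (hb : b ∈ I) :
    Weak (D.Om i) (S.vv b) (S.rhs b) := by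
  have h := weak_smul hN (S.sc b) (S.rhs_Mq hN hb (td N)) (S.eqn hN hb)
  refine weak_congr h (Eventually.of_forall fun x _ => ?_)
  unfold rhs
  rw [nl_smul (S.sc_pos hb), S.sc_pm hN hb]
  ring

/-- near `b₀`, a coincidence of the parameters implies a coincidence of the solutions -/
lemma lam_ne_ev (hN : 3 ≤ N) (hN5 : N ≤ 5) (S : Br D e i C B k I) {b₀ : ℝ} (hb₀ : b₀ ∈ I)
    (hnd : ∀ w ∈ XS e (D.rho i), Weak (D.Om i) w (fun x => S.lam' b₀ * fn w x +
      dnl N (fn (S.vv b₀) x) * fn w x) → w = 0) :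
    ∀ᶠ b in 𝓝[I] b₀, S.lam' b = S.lam' b₀ → S.vv b = S.vv b₀ := by
  have hρ := rho_pos D i
  have hρ1 := rho_lt D i
  set M : ℝ := k ^ (1 / pm N) * C with hM
  have hM0 : 0 ≤ M := by
    have h1 : ∃ x, x ∈ D.Om i := by
      obtain ⟨t, ht, ht'⟩ := exists_between (rho_lt D i)
      exact ⟨t • e, S.axis_mem ht ht'⟩
    obtain ⟨x, hx⟩ := h1
    exact (abs_nonneg _).trans (S.vv_bdd hN hb₀ x hx)
  have hr0 := S.vv_rep hN hb₀
  -- the potential
  set a : E N → ℝ := fun x => S.lam' b₀ + dnl N (fn (S.vv b₀) x) with ha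
  have ham : AEStronglyMeasurable a (volume.restrict (ann N (D.rho i))) := by
    have h1 : AEStronglyMeasurable (fun x => dnl N (fn (S.vv b₀) x)) volume :=
      (continuous_dnl hN hN5).comp_aestronglyMeasurable (fn_meas _)
    exact (aestronglyMeasurable_const.add h1).restrict
  have hab : ∀ᵐ x, x ∈ ann N (D.rho i) → |a x| ≤ |S.lam' b₀| + (pm N + 1) * M ^ pm N := by
    filter_upwards [hr0.2.2] with x hx hx'
    rw [ha]
    simp only
    rw [hx]
    exact (abs_add_le _ _).trans (add_le_add le_rfl (dnl_le hN (S.vv_bdd hN hb₀ x hx')))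
  have haA : Axial e ((ann N (D.rho i)).indicator a) := by
    have h1 := ((mem_XS hN).1 (S.vv_mem hN hb₀)).2
    exact axial_ind h1 (F := fun t => S.lam' b₀ + dnl N t)
      (measurable_const.add (continuous_dnl hN hN5).measurable)
  have haq : ∀ q : ℝ, Mq q (ann N (D.rho i)) a := fun q => Mq_bdd ham hab
  have hKa := Kop_apply hN hρ hρ1 S.he (haq _) haA
  obtain ⟨m, hm, hbel⟩ := bddBelow_of_compact (Kop_compact hN hρ hρ1 S.he ham hab haA) (by
    intro x hx
    have h1 : (x : LV N) = T (ann N (D.rho i)) (fun y => a y * fn (x : LV N) y) := by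
      rw [← hKa x, hx]
    have hxD : (x : LV N) ∈ DD (univ : Set (E N)) := mem_univ_of_DD (XS_DD hN x.2)
    have h2 := holder_pot hN (haq _) (Mq_restrict (ρ := D.rho i) (sobolev hN hxD).1)
    rw [← weak_iff_T hN (measurableSet_ann _) h2.1] at h1
    have h3 := hnd _ x.2 (weak_congr h1 (Eventually.of_forall fun y _ => by rw [ha]; ring))
    exact Subtype.ext h3)
  -- Taylor
  obtain ⟨Ct, hCt, htay⟩ := nl_taylor hN hN5
  obtain ⟨S1, hS1, hsob⟩ := exists_sob_q hN 1 (q := (N : ℝ) / 2)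
    (by have : (3 : ℝ) ≤ N := by exact_mod_cast hN
        linarith)
    (by
      have h1 : (3 : ℝ) ≤ N := by exact_mod_cast hN
      have h2 : (N : ℝ) ≤ 5 := by exact_mod_cast hN5
      unfold ts
      rw [div_le_div_iff₀ (by norm_num) (by linarith)]
      nlinarith)
  have hpm1 : 0 ≤ pm N - 1 := by linarith [pm_ge hN hN5]
  set C' : ℝ := Ct * (M ^ (pm N - 1) + (2 * M) ^ (pm N - 1)) with hC'
  have hC'0 : 0 ≤ C' := by positivity
  set C2 : ℝ := SS N * (C' * S1 * SS N) with hC2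
  have hSS : 0 < SS N := SS_pos
  have hC20 : 0 ≤ C2 := by positivity
  have key : ∀ b ∈ I, S.lam' b = S.lam' b₀ →
      m * ‖S.vv b - S.vv b₀‖ ≤ C2 * ‖S.vv b - S.vv b₀‖ ^ 2 := by
    intro b hb hlam
    set w : XS e (D.rho i) := ⟨S.vv b - S.vv b₀,
      Submodule.sub_mem _ (S.vv_mem hN hb) (S.vv_mem hN hb₀)⟩ with hw
    have h1 := hbel w
    have hwD : (w : LV N) ∈ DD (univ : Set (E N)) := mem_univ_of_DD (XS_DD hN w.2)
    have hwf : fn (w : LV N) =ᵐ[volume] fun x => S.sc b * S.u b x - S.sc b₀ * S.u b₀ x := by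
      have h3 := fn_sub hN (mem_univ_of_DD (XS_DD hN (S.vv_mem hN hb)))
        (mem_univ_of_DD (XS_DD hN (S.vv_mem hN hb₀)))
      filter_upwards [h3, (S.vv_rep hN hb).2.2, hr0.2.2] with x a1 a2 a3
      change fn (S.vv b - S.vv b₀) x = _
      rw [a1, a2, a3]
    have hsw := sobolev hN hwD
    have h2 := holder_pot hN (haq (N / 2)) (Mq_restrict (ρ := D.rho i) hsw.1)
    -- `w - K w`
    set r : E N → ℝ := fun x => (S.rhs b x - S.rhs b₀ x) - a x * fn (w : LV N) x with hr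
    have hrq : Mq (td N) (ann N (D.rho i)) r :=
      ((S.rhs_Mq' hN hb _).sub (S.rhs_Mq' hN hb₀ _)).sub h2.1
    have h3 : ((w - Kop e (D.rho i) a w : XS e (D.rho i)) : LV N) = T (ann N (D.rho i)) r := by
      have e1 := (weak_iff_T hN (measurableSet_ann _) (S.rhs_Mq' hN hb (td N))).1 (S.vv_weak hN hb)
      have e2 := (weak_iff_T hN (measurableSet_ann _) (S.rhs_Mq' hN hb₀ (td N))).1
        (S.vv_weak hN hb₀)
      have e3 := T_sub hN (measurableSet_ann (D.rho i)) (S.rhs_Mq' hN hb (td N))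
        (S.rhs_Mq' hN hb₀ (td N))
      have hdq : Mq (td N) (ann N (D.rho i)) (fun x => S.rhs b x - S.rhs b₀ x) :=
        (S.rhs_Mq' hN hb _).sub (S.rhs_Mq' hN hb₀ _)
      have e4 := T_sub hN (measurableSet_ann (D.rho i)) hdq h2.1
      rw [hr, e4, e3, Submodule.coe_sub, hKa w]
      change S.vv b - S.vv b₀ - _ = _
      rw [e1, e2]
    have h4 : ‖w - Kop e (D.rho i) a w‖ ≤ SS N * nq (td N) (ann N (D.rho i)) r := by
      change ‖((w - Kop e (D.rho i) a w : XS e (D.rho i)) : LV N)‖ ≤ _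
      rw [h3]
      exact T_norm hN (measurableSet_ann _) hrq
    have hwb : (w : LV N) ∈ DD (ball (0 : E N) 1) := DD_mono (ann_sub_ball _) (XS_DD hN w.2)
    have hs1 := hsob _ hwb
    have h5 : ∀ᵐ x, x ∈ ann N (D.rho i) → |r x| ≤ |(C' * fn (w : LV N) x) * fn (w : LV N) x| := by
      filter_upwards [hwf, hr0.2.2] with x a1 a2 hx
      have b1 := S.vv_bdd hN hb x hx
      have b2 := S.vv_bdd hN hb₀ x hx
      set p := S.sc b * S.u b x with hp
      set p0 := S.sc b₀ * S.u b₀ x with hp0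
      have b3 := htay p0 (p - p0)
      have b4 : p0 + (p - p0) = p := by ring
      rw [b4] at b3
      have b5 : r x = nl N p - nl N p0 - dnl N p0 * (p - p0) := by
        rw [hr, ha]
        simp only
        rw [a1, a2]
        unfold rhs
        rw [hlam, ← hp, ← hp0]
        ring
      have b6 : |p - p0| ≤ 2 * M := by
        refine (abs_sub _ _).trans ?_
        linarith
      rw [b5, a1]
      refine b3.trans ?_
      have b7 : |p0| ^ (pm N - 1) ≤ M ^ (pm N - 1) := Real.rpow_le_rpow (abs_nonneg _) b2 hpm1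
      have b8 : |p - p0| ^ (pm N - 1) ≤ (2 * M) ^ (pm N - 1) :=
        Real.rpow_le_rpow (abs_nonneg _) b6 hpm1
      have b9 : Ct * (|p0| ^ (pm N - 1) + |p - p0| ^ (pm N - 1)) ≤ C' :=
        mul_le_mul_of_nonneg_left (add_le_add b7 b8) hCt.le
      calc Ct * (|p0| ^ (pm N - 1) + |p - p0| ^ (pm N - 1)) * (p - p0) ^ 2
          ≤ C' * (p - p0) ^ 2 := mul_le_mul_of_nonneg_right b9 (sq_nonneg _)
        _ = |C' * (p - p0) * (p - p0)| := by
            rw [mul_assoc C', ← pow_two, abs_of_nonneg (mul_nonneg hC'0 (sq_nonneg _))]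
    have hq2 : Mq (N / 2) (ann N (D.rho i)) (fun x => C' * fn (w : LV N) x) :=
      (Mq_restrict hs1.1).const_mul C'
    have h6 := holder_pot hN hq2 (Mq_restrict (ρ := D.rho i) hsw.1)
    have h7 := nq_mono h6.1 h5
    have h8 : nq (N / 2) (ann N (D.rho i)) (fun x => C' * fn (w : LV N) x) ≤
        C' * (S1 * ‖(w : LV N)‖) := by
      rw [nq_const_mul hC'0]
      exact mul_le_mul_of_nonneg_left ((nq_restrict_le hs1.1).trans hs1.2) hC'0
    have h9 : nq (ts N) (ann N (D.rho i)) (fn (w : LV N)) ≤ SS N * ‖(w : LV N)‖ :=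
      (nq_restrict_le hsw.1).trans hsw.2
    have h10 : nq (td N) (ann N (D.rho i)) r ≤
        (C' * (S1 * ‖(w : LV N)‖)) * (SS N * ‖(w : LV N)‖) :=
      (h7.trans h6.2).trans (mul_le_mul h8 h9 ENNReal.toReal_nonneg (by positivity))
    calc m * ‖S.vv b - S.vv b₀‖ ≤ ‖w - Kop e (D.rho i) a w‖ := h1
      _ ≤ SS N * nq (td N) (ann N (D.rho i)) r := h4
      _ ≤ SS N * ((C' * (S1 * ‖(w : LV N)‖)) * (SS N * ‖(w : LV N)‖)) :=
          mul_le_mul_of_nonneg_left h10 hSS.le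
      _ = C2 * ‖S.vv b - S.vv b₀‖ ^ 2 := by
          rw [hC2]
          change SS N * ((C' * (S1 * ‖S.vv b - S.vv b₀‖)) * (SS N * ‖S.vv b - S.vv b₀‖)) = _
          ring
  have hlim : Tendsto (fun b => ‖S.vv b - S.vv b₀‖) (𝓝[I] b₀) (𝓝 0) := by
    have h1 : Tendsto S.vv (𝓝[I] b₀) (𝓝 (S.vv b₀)) := S.vv_cont b₀ hb₀
    simpa using (h1.sub_const (S.vv b₀)).norm
  have hpos : 0 < m / (C2 + 1) := by positivity
  filter_upwards [hlim.eventually (gt_mem_nhds hpos), self_mem_nhdsWithin] with b h1 h2 h3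
  have h4 := key b h2 h3
  by_contra hne
  have h5 : 0 < ‖S.vv b - S.vv b₀‖ := norm_pos_iff.2 (sub_ne_zero.2 hne)
  rw [lt_div_iff₀ (by positivity)] at h1
  nlinarith

end Br
end FF
end Pool.Agent.helper13.BN
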