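import Pool.Agent.helper67.BN.FF5

/-!
# MP_94a57f_an, module C11 (6): expansion on the axis and uniform bounds
-/

set_option autoImplicit false
open MeasureTheory Filter Topology Set Metric
open scoped ContDiff Gradient RealInnerProductSpace ENNReal

noncomputable section
namespace Pool.Agent.helper13.BN
namespace FF
variable {N : ℕ}

namespace Br
variable {D : Cr N} {e : E N} {i : ℕ} {C B k : ℝ} {I : Set ℝ}

/-- expansion on the axis -/
lemma axis_exp (S : Br D e i C B k I) {eo : ℝ → ℝ} {K3 C4 γ b d : ℝ} (hd : 0 < d)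
    (hmem : (1 - d) • e ∈ D.Om i)
    (h1 : |D.f1 e i ((1 - d) • e) - AA N (1 - d)| ≤ C4 * d ^ 3)
    (h2 : |D.f1 e i ((1 - d) • e) - D.f2 e i ((1 - d) • e) + γ * d ^ 3| ≤ C4 * d ^ 4)
    (h3 : |S.v b ((1 - d) • e) - eo b * AA N (1 - d)| ≤ K3 * d ^ 3) :
    |S.u b ((1 - d) • e) - ((1 + b + eo b) * AA N (1 - d) + b * γ * d ^ 3)| ≤
      (|1 + b| * C4 + |b| * (C4 * d) + K3) * d ^ 3 := by
  rw [S.u_of_mem b hmem]
  have e1 : D.f1 e i ((1 - d) • e) + b * D.f2 e i ((1 - d) • e) + S.v b ((1 - d) • e) -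
      ((1 + b + eo b) * AA N (1 - d) + b * γ * d ^ 3) =
      (1 + b) * (D.f1 e i ((1 - d) • e) - AA N (1 - d)) +
      (-b) * (D.f1 e i ((1 - d) • e) - D.f2 e i ((1 - d) • e) + γ * d ^ 3) +
      (S.v b ((1 - d) • e) - eo b * AA N (1 - d)) := by ring
  rw [e1]
  have a1 : |(1 + b) * (D.f1 e i ((1 - d) • e) - AA N (1 - d))| ≤ |1 + b| * (C4 * d ^ 3) := by
    rw [abs_mul]
    exact mul_le_mul_of_nonneg_left h1 (abs_nonneg _)
  have a2 : |(-b) * (D.f1 e i ((1 - d) • e) - D.f2 e i ((1 - d) • e) + γ * d ^ 3)| ≤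
      |b| * (C4 * d ^ 4) := by
    rw [abs_mul, abs_neg]
    exact mul_le_mul_of_nonneg_left h2 (abs_nonneg _)
  have a3 := abs_add_three ((1 + b) * (D.f1 e i ((1 - d) • e) - AA N (1 - d)))
    ((-b) * (D.f1 e i ((1 - d) • e) - D.f2 e i ((1 - d) • e) + γ * d ^ 3))
    (S.v b ((1 - d) • e) - eo b * AA N (1 - d))
  calc _ ≤ _ := a3
    _ ≤ |1 + b| * (C4 * d ^ 3) + |b| * (C4 * d ^ 4) + K3 * d ^ 3 := by linarith
    _ = _ := by ring

/-- two coinciding solutions have the same slope -/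
lemma slope_eq (S : Br D e i C B k I) (hN : 3 ≤ N) {ep : ℝ → ℝ} {K4 C4 d1 b b' : ℝ}
    (hb : b ∈ I) (hb' : b' ∈ I) (hd1 : 0 < d1) (hd1' : D.rho i < 1 - d1)
    (hAA : ∀ d ∈ Ioo 0 d1, |AA N (1 - d) - d| ≤ C4 * d ^ 2)
    (h : ∀ c ∈ I, ∀ d ∈ Ioo 0 d1, |S.u c ((1 - d) • e) - ep c * AA N (1 - d)| ≤ K4 * d ^ 3)
    (heq : S.vv b = S.vv b') : S.sc b * ep b = S.sc b' * ep b' := by
  have h1 : ∀ x ∈ D.Om i, |S.sc b * S.u b x - S.sc b' * S.u b' x| ≤ 0 := by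
    have r1 := S.vv_rep hN hb
    have r2 := S.vv_rep hN hb'
    refine rep_le_of_ae (v := fun x => S.sc b * S.u b x - S.sc b' * S.u b' x)
      (r1.1.sub r2.1) ?_
    filter_upwards [r1.2.2, r2.2.2] with x a1 a2 _
    rw [← a1, ← a2, heq, sub_self, abs_zero]
  by_contra hne
  set δ := |S.sc b * ep b - S.sc b' * ep b'| with hδ
  have hδ0 : 0 < δ := abs_pos.2 (sub_ne_zero.2 hne)
  have key : ∀ d ∈ Ioo 0 d1, δ * AA N (1 - d) ≤ (S.sc b + S.sc b') * K4 * d ^ 3 := by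
    intro d hd
    have hx : (1 - d) • e ∈ D.Om i := S.axis_mem (by linarith [hd.2]) (by linarith [hd.1])
    have a0 : S.sc b * S.u b ((1 - d) • e) = S.sc b' * S.u b' ((1 - d) • e) := by
      have := h1 _ hx
      have := abs_eq_zero.1 (le_antisymm this (abs_nonneg _))
      linarith
    have a1 := h b hb d hd
    have a2 := h b' hb' d hd
    have e1 : (S.sc b * ep b - S.sc b' * ep b') * AA N (1 - d) =
        -(S.sc b * (S.u b ((1 - d) • e) - ep b * AA N (1 - d))) +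
        S.sc b' * (S.u b' ((1 - d) • e) - ep b' * AA N (1 - d)) := by
      linear_combination a0
    have e2 : δ * |AA N (1 - d)| ≤ (S.sc b + S.sc b') * K4 * d ^ 3 := by
      rw [hδ, ← abs_mul, e1]
      refine (abs_add_le _ _).trans ?_
      rw [abs_neg, abs_mul, abs_mul, abs_of_pos (S.sc_pos hb), abs_of_pos (S.sc_pos hb')]
      have := mul_le_mul_of_nonneg_left a1 (S.sc_pos hb).le
      have := mul_le_mul_of_nonneg_left a2 (S.sc_pos hb').le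
      linarith
    exact (mul_le_mul_of_nonneg_left (le_abs_self _) hδ0.le).trans e2
  -- choice of `d`
  obtain ⟨d, hd, hdd1, hd2, hd3⟩ : ∃ d : ℝ, 0 < d ∧ d < d1 ∧ C4 * d < 1 / 2 ∧
      (S.sc b + S.sc b') * K4 * d ^ 2 < δ / 2 := by
    have e1 : ∀ᶠ d : ℝ in 𝓝[>] 0, d < d1 := by
      filter_upwards [Ioo_mem_nhdsGT hd1] with d hd using hd.2
    have e2 : ∀ᶠ d : ℝ in 𝓝[>] 0, C4 * d < 1 / 2 := by
      have : Tendsto (fun d : ℝ => C4 * d) (𝓝[>] 0) (𝓝 (C4 * 0)) :=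
        ((continuous_const.mul continuous_id).tendsto 0).mono_left nhdsWithin_le_nhds
      rw [mul_zero] at this
      exact this.eventually (gt_mem_nhds (by norm_num))
    have e3 : ∀ᶠ d : ℝ in 𝓝[>] 0, (S.sc b + S.sc b') * K4 * d ^ 2 < δ / 2 := by
      have : Tendsto (fun d : ℝ => (S.sc b + S.sc b') * K4 * d ^ 2) (𝓝[>] 0)
          (𝓝 ((S.sc b + S.sc b') * K4 * 0 ^ 2)) :=
        ((continuous_const.mul (continuous_id.pow 2)).tendsto 0).mono_left nhdsWithin_le_nhds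
      rw [zero_pow two_ne_zero, mul_zero] at this
      exact this.eventually (gt_mem_nhds (by positivity))
    obtain ⟨d, h1, h2, h3, h4⟩ := (e1.and (e2.and (e3.and self_mem_nhdsWithin))).exists
    exact ⟨d, h4, h1, h2, h3⟩
  have hA := hAA d ⟨hd, hdd1⟩
  have hA2 : d / 2 ≤ AA N (1 - d) := by
    rw [abs_le] at hA
    nlinarith [hA.1]
  have h5 := key d ⟨hd, hdd1⟩
  have h6 : δ * (d / 2) ≤ δ * AA N (1 - d) := mul_le_mul_of_nonneg_left hA2 hδ0.le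
  nlinarith

/-- the linearised problem of the scaled solution -/
lemma nondeg (S : Br D e i C B k I) (hN : 3 ≤ N) {b : ℝ} (hb : b ∈ I)
    (h : ∀ w ∈ XS e (D.rho i), Weak (D.Om i) w (fun x => S.lam' b * fn w x
        + S.sig b * dnl N (fn (D.F1 e i + b • D.F2 e i + S.om b) x) * fn w x) → w = 0) :
    ∀ w ∈ XS e (D.rho i), Weak (D.Om i) w (fun x => S.lam' b * fn w x +
      dnl N (fn (S.vv b) x) * fn w x) → w = 0 := by
  intro w hw hweak
  refine h w hw (weak_congr hweak ?_)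
  have h1 := fn_smul hN (S.sc b) (mem_univ_of_DD (XS_DD hN (S.U_mem hN hb)))
  filter_upwards [h1] with x a1 _
  unfold vv
  rw [a1, dnl_smul (S.sc_pos hb), S.sc_pm hN hb]
  rfl

lemma vv_le (S : Br D e i C B k I) (hN : 3 ≤ N) (hB : 0 ≤ B) {C3 : ℝ} (hC3 : 0 ≤ C3)
    (hf : ∀ x ∈ D.Om i, |D.f1 e i x| ≤ C3 * (1 - ‖x‖) ∧ |D.f2 e i x| ≤ C3 * (1 - ‖x‖))
    {b : ℝ} (hb : b ∈ I) (hb2 : |b| ≤ 2) : ∀ x ∈ D.Om i,
      |S.sc b * S.u b x| ≤ k ^ (1 / pm N) * (3 * C3 + B * k) * (1 - ‖x‖) := by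
  intro x hx
  have hx1 : 0 ≤ 1 - ‖x‖ := by linarith [hx.2]
  have hk : 0 ≤ k := (S.sol b hb).sig_pos.le.trans (S.sig_le b hb)
  rw [abs_mul, abs_of_pos (S.sc_pos hb), S.u_of_mem b hx]
  have h1 := (hf x hx).1
  have h2 := (hf x hx).2
  have h3 := S.v_le b hb x hx
  have h4 : |b * D.f2 e i x| ≤ 2 * (C3 * (1 - ‖x‖)) := by
    rw [abs_mul]
    exact mul_le_mul hb2 h2 (abs_nonneg _) (by norm_num)
  have h5 : B * S.sig b * (1 - ‖x‖) ≤ B * k * (1 - ‖x‖) :=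
    mul_le_mul_of_nonneg_right (mul_le_mul_of_nonneg_left (S.sig_le b hb) hB) hx1
  have h6 := abs_add_three (D.f1 e i x) (b * D.f2 e i x) (S.v b x)
  have h7 : |D.f1 e i x + b * D.f2 e i x + S.v b x| ≤ (3 * C3 + B * k) * (1 - ‖x‖) := by
    linarith
  rw [mul_assoc]
  exact mul_le_mul (S.sc_le hN hb) h7 (abs_nonneg _)
    ((S.sc_pos hb).le.trans (S.sc_le hN hb))

end Br
end FF
end Pool.Agent.helper13.BN
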